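import Pool.Agent.NEG72.Win

/-!
# Windows with explicit parameters
-/

namespace Pool.Agent.NEG72

open Finset Pool.Agent.NegLim

lemma card_edge (v : ℕ) : Fintype.card (Edge v) = v * (v - 1) / 2 := by
  rw [Fintype.card_subtype, Finset.card_filter, Fintype.sum_prod_type_right]
  have h : ∀ j : Fin v, (∑ i : Fin v, if (i, j).1 < (i, j).2 then 1 else 0) = (j : ℕ) := by
    intro j
    rw [← Finset.card_filter]
    have h1 : (univ.filter fun i : Fin v => (i, j).1 < (i, j).2) = Finset.Iio j := by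
      ext i
      simp
    rw [h1, Fin.card_Iio]
  rw [Finset.sum_congr rfl fun j _ => h j, Fin.sum_univ_eq_sum_range (fun i => i),
    Finset.sum_range_id]

/-- windows with explicit parameters -/
theorem params_explicit {v b k : ℕ} (hb0 : 0 < b) (hk0 : 0 < k) (hKv : 2 * k * b * k ≤ v) :
    ∃ (Q : ℕ) (D : Finset ℕ), ThreeAPFree (D : Set ℕ) ∧
      (∀ w ∈ Finset.range Q ×ˢ D, ∀ i < k, w.1 + i * w.2 < 2 * Q) ∧ k * (2 * Q) * b ≤ v ∧
      (v : ℝ) ^ 2 ≤ 32 * ((k : ℝ) ^ 3 * (b : ℝ) ^ 2) * Real.exp (4 * √(Real.log (v : ℝ))) *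
        ((Q * D.card : ℕ) : ℝ) := by
  set Q := v / (2 * k * b) with hQ
  have hK0 : 0 < 2 * k * b := by positivity
  have hv1' : 1 ≤ v := le_trans (Nat.succ_le_of_lt (by positivity)) hKv
  have hv1 : (1 : ℝ) ≤ v := by exact_mod_cast hv1'
  have hv0 : (0 : ℝ) < v := by linarith
  have hQk : k ≤ Q := by
    rw [hQ, Nat.le_div_iff_mul_le hK0]
    rw [mul_comm] at hKv
    exact hKv
  have hQ1 : 1 ≤ Q := by omega
  have hvQ : v ≤ 4 * k * b * Q := by
    have h3 : v < 2 * k * b * (Q + 1) := Nat.lt_mul_div_succ v hK0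
    calc v ≤ 2 * k * b * (Q + 1) := h3.le
      _ ≤ 2 * k * b * (2 * Q) := Nat.mul_le_mul_left _ (by omega)
      _ = 4 * k * b * Q := by ring
  set Q' := Q / k with hQ'
  have hQ'1 : 1 ≤ Q' := by
    rw [hQ', Nat.le_div_iff_mul_le hk0]
    omega
  have hQQ' : Q ≤ 2 * k * Q' := by
    have h3 : Q < k * (Q' + 1) := Nat.lt_mul_div_succ Q hk0
    calc Q ≤ k * (Q' + 1) := h3.le
      _ ≤ k * (2 * Q') := Nat.mul_le_mul_left _ (by omega)
      _ = 2 * k * Q' := by ring
  obtain ⟨D, hDsub, hDcard, hDfree⟩ := rothNumberNat_spec Q'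
  refine ⟨Q, D, hDfree, ?_, ?_, ?_⟩
  · intro w hw i hi
    rw [Finset.mem_product, Finset.mem_range] at hw
    have h3 : w.2 < Q' := Finset.mem_range.1 (hDsub hw.2)
    have h4 : i * w.2 ≤ k * Q' := Nat.mul_le_mul hi.le h3.le
    have h5 : k * Q' ≤ Q := by
      rw [mul_comm]
      exact Nat.div_mul_le_self Q k
    omega
  · have h3 : Q * (2 * k * b) ≤ v := Nat.div_mul_le_self _ _
    calc k * (2 * Q) * b = Q * (2 * k * b) := by ring
      _ ≤ v := h3
  · have hroth : (Q' : ℝ) * Real.exp (-4 * √(Real.log (v : ℝ))) ≤ D.card := by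
      have h3 := Behrend.roth_lower_bound (N := Q')
      rw [← hDcard] at h3
      refine le_trans ?_ h3
      have h4 : Q' ≤ v := (Nat.div_le_self _ _).trans (Nat.div_le_self _ _)
      have h5 : Real.log (Q' : ℝ) ≤ Real.log (v : ℝ) :=
        Real.log_le_log (by exact_mod_cast hQ'1) (by exact_mod_cast h4)
      have h6 : √(Real.log (Q' : ℝ)) ≤ √(Real.log (v : ℝ)) := Real.sqrt_le_sqrt h5
      apply mul_le_mul_of_nonneg_left _ (by positivity)
      apply Real.exp_le_exp.2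
      linarith
    have hQQ : (v : ℝ) ^ 2 ≤ 32 * ((k : ℝ) ^ 3 * (b : ℝ) ^ 2) * (Q * Q') := by
      have h3 : v * v ≤ 32 * (k ^ 3 * b ^ 2) * (Q * Q') := by
        calc v * v ≤ (4 * k * b * Q) * (4 * k * b * Q) := Nat.mul_le_mul hvQ hvQ
          _ = 16 * (k ^ 2 * b ^ 2) * (Q * Q) := by ring
          _ ≤ 16 * (k ^ 2 * b ^ 2) * (Q * (2 * k * Q')) := by gcongr
          _ = _ := by ring
      calc (v : ℝ) ^ 2 = ((v * v : ℕ) : ℝ) := by push_cast; ring
        _ ≤ ((32 * (k ^ 3 * b ^ 2) * (Q * Q') : ℕ) : ℝ) := by exact_mod_cast h3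
        _ = _ := by push_cast; ring
    have h7 : (Q' : ℝ) ≤ Real.exp (4 * √(Real.log (v : ℝ))) * D.card := by
      calc (Q' : ℝ) = Real.exp (4 * √(Real.log (v : ℝ))) *
            (Q' * Real.exp (-4 * √(Real.log (v : ℝ)))) := by
            rw [mul_comm (Q' : ℝ), ← mul_assoc, ← Real.exp_add]
            simp
        _ ≤ Real.exp (4 * √(Real.log (v : ℝ))) * D.card := by gcongr
    calc (v : ℝ) ^ 2 ≤ 32 * ((k : ℝ) ^ 3 * (b : ℝ) ^ 2) * (Q * Q') := hQQ
      _ ≤ 32 * ((k : ℝ) ^ 3 * (b : ℝ) ^ 2) *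
          (Q * (Real.exp (4 * √(Real.log (v : ℝ))) * D.card)) := by gcongr
      _ = _ := by push_cast; ring

open Classical in
/-- **Windows**, explicit form. -/
theorem windows_explicit {v n k : ℕ} (hn : 2 ^ 200 ≤ n) (hk : k = Nat.sqrt (Nat.sqrt n))
    (hnv : n ^ 2 ≤ v) : ∃ (m : ℕ) (B : Fin m → Edge v → Bool),
      (v : ℝ) ^ 2 ≤ (n : ℝ) ^ 4 * Real.exp (4 * √(Real.log (v : ℝ))) * m ∧
      (∀ i j e, B i e = true → B j e = true → i = j) ∧
      (∀ x : Edge v → Bool, (∀ e, (∀ i, B i e = false) → x e = true) →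
        (nis v k x = true ↔ ∀ i, nis v k (fun e => !(B i e) || x e) = true)) ∧
      ∀ i T, MonSize (fun x => nis v k fun e => !(B i e) || x e) T →
        (2 : ℝ) ^ ((n : ℝ) ^ (1 / 8 : ℝ)) ≤ T := by
  have hk4 : k ^ 4 ≤ n := by
    have h1 : k * k ≤ Nat.sqrt n := by
      rw [hk]
      exact Nat.sqrt_le _
    have h2 : Nat.sqrt n * Nat.sqrt n ≤ n := Nat.sqrt_le _
    calc k ^ 4 = (k * k) * (k * k) := by ring
      _ ≤ Nat.sqrt n * Nat.sqrt n := Nat.mul_le_mul h1 h1
      _ ≤ n := h2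
  have hk5 : 5 ≤ k := by
    rw [hk, Nat.le_sqrt, Nat.le_sqrt]
    exact le_trans (by norm_num) hn
  have hklt : n < (k + 1) ^ 4 := by
    have h1 : Nat.sqrt n < (k + 1) * (k + 1) := by
      rw [hk]
      exact Nat.lt_succ_sqrt _
    have h2 : n < (Nat.sqrt n + 1) * (Nat.sqrt n + 1) := Nat.lt_succ_sqrt _
    calc n < (Nat.sqrt n + 1) * (Nat.sqrt n + 1) := h2
      _ ≤ ((k + 1) * (k + 1)) * ((k + 1) * (k + 1)) := Nat.mul_le_mul h1 h1
      _ = (k + 1) ^ 4 := by ring
  have hn0 : 0 < n := lt_of_lt_of_le (by positivity) hn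
  have hk2n : 2 * k * n * k ≤ v := by
    refine le_trans ?_ hnv
    have h1 : 2 * (k * k) ≤ k ^ 4 := by
      have h2 : 2 ≤ k * k := by nlinarith
      calc 2 * (k * k) ≤ (k * k) * (k * k) := Nat.mul_le_mul_right _ h2
        _ = k ^ 4 := by ring
    calc 2 * k * n * k = (2 * (k * k)) * n := by ring
      _ ≤ k ^ 4 * n := Nat.mul_le_mul_right _ h1
      _ ≤ n * n := Nat.mul_le_mul_right _ hk4
      _ = n ^ 2 := (sq n).symm
  obtain ⟨Q, D, hD, hw, hQb, hcard⟩ := params_explicit hn0 (by omega : 0 < k) hk2n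
  set W := Finset.range Q ×ˢ D with hW
  have hWc : W.card = Q * D.card := by rw [hW, card_product, card_range]
  let φ : Fin W.card ≃ W := W.equivFin.symm
  refine ⟨W.card, fun i e => decide (InWin k Q n (φ i).1 e), ?_, ?_, ?_, ?_⟩
  · rw [hWc]
    refine hcard.trans ?_
    have h1 : 32 * ((k : ℝ) ^ 3 * (n : ℝ) ^ 2) ≤ (n : ℝ) ^ 4 := by
      have h2 : 32 * (k ^ 3 * n ^ 2) ≤ n ^ 4 := by
        have h3 : k ^ 3 ≤ n := (Nat.pow_le_pow_right (by omega) (by norm_num)).trans hk4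
        have h4 : 32 ≤ n := le_trans (by norm_num) hn
        calc 32 * (k ^ 3 * n ^ 2) ≤ n * (n * n ^ 2) :=
              Nat.mul_le_mul h4 (Nat.mul_le_mul_right _ h3)
          _ = n ^ 4 := by ring
      exact_mod_cast h2
    gcongr
  · intro i j e h1 h2
    rw [decide_eq_true_eq] at h1 h2
    exact φ.injective (Subtype.ext (h1.unique h2))
  · intro x hx
    constructor
    · intro h i
      rw [nis_iff] at h ⊢
      intro S hS
      obtain ⟨e, h1, h2, h3⟩ := h S hS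
      exact ⟨e, h1, h2, by simp [h3]⟩
    · intro h
      by_contra hne
      rw [nis_iff] at hne
      push Not at hne
      obtain ⟨S, hS, hSx⟩ := hne
      obtain ⟨w, hwW, hwS⟩ := one_window hD (by omega : 2 ≤ k) hS (by
        intro e h1 h2
        by_contra hno
        push Not at hno
        refine hSx e h1 h2 (hx e fun i => ?_)
        rw [decide_eq_false_iff_not]
        exact hno (φ i).1 (φ i).2)
      obtain ⟨i, hi⟩ : ∃ i, (φ i).1 = w := ⟨φ.symm ⟨w, hwW⟩, by simp⟩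
      obtain ⟨e, h1, h2, h3⟩ := (nis_iff.1 (h i)) S hS
      have h4 := hwS e h1 h2
      rw [← hi] at h4
      rw [Bool.or_eq_true, Bool.not_eq_true', decide_eq_false_iff_not] at h3
      rcases h3 with h3 | h3
      · exact h3 h4
      · exact hSx e h1 h2 h3
  · intro i T hTi
    have h1 := monSize_dual hTi
    have h2 : dual (fun x : Edge v → Bool =>
        nis v k fun e => !(decide (InWin k Q n (φ i).1 e)) || x e) =
        winClq v k Q n (φ i).1 := by
      funext x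
      unfold dual winClq
      rw [← clq_not]
      congr 1
      funext e
      simp
    rw [h2] at h1
    have h3 := numerics_win (T := T) hn hk5 hk4 fun l p hl hl2 hp =>
      win_bound (hw _ (φ i).2) hQb (by omega : 2 ≤ k) hn0 hl hl2 hp h1
    refine le_trans ?_ h3
    have hkr : (5 : ℝ) ≤ k := by exact_mod_cast hk5
    have e1 : (n : ℝ) ^ (1 / 8 : ℝ) ≤ √((k : ℝ) + 1) := by
      apply Real.le_sqrt_of_sq_le
      have h4 : (((n : ℝ) ^ (1 / 8 : ℝ)) ^ 2) ^ 4 ≤ ((k : ℝ) + 1) ^ 4 := by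
        refine le_trans (le_of_eq ?_) (by exact_mod_cast hklt.le : (n : ℝ) ≤ ((k : ℝ) + 1) ^ 4)
        rw [← pow_mul, ← Real.rpow_natCast, ← Real.rpow_mul (by positivity)]
        norm_num
      exact (pow_le_pow_iff_left₀ (by positivity) (by positivity) (by norm_num)).1 h4
    have e3 : √((k : ℝ) + 1) ≤ 25 * √(k : ℝ) := by
      rw [Real.sqrt_le_left (by positivity), mul_pow, Real.sq_sqrt (by linarith)]
      linarith
    calc (2 : ℝ) ^ ((n : ℝ) ^ (1 / 8 : ℝ)) ≤ (2 : ℝ) ^ (200 * (√(k : ℝ) / 8)) := by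
          apply Real.rpow_le_rpow_of_exponent_le (by norm_num)
          linarith
      _ = ((2 : ℝ) ^ (200 : ℝ)) ^ (√(k : ℝ) / 8) := by rw [← Real.rpow_mul (by norm_num)]
      _ ≤ (n : ℝ) ^ (√(k : ℝ) / 8) := by
          apply Real.rpow_le_rpow (by positivity) _ (by positivity)
          have : ((2 ^ 200 : ℕ) : ℝ) ≤ n := by exact_mod_cast hn
          refine le_trans (le_of_eq ?_) this
          norm_num

end Pool.Agent.NEG72
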