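import Pool.Agent.NEG72.Appr
import Pool.Agent.NegLim.Defs

/-!
# The method of approximations for monotone straight-line programs
-/

namespace Pool.Agent.NEG72

open Finset Pool.Agent.NegLim

section

variable {V E P : Type} [Fintype V] [DecidableEq V] [Fintype P] [DecidableEq P]
  {c : ℕ} (pos : P → E → Bool) (K : P → Finset V) (neg : (V → Fin c) → E → Bool)

/-- the family `A` approximates the function `f` apart from the errors `BP` and `BN` -/
def Approx (l M : ℕ) (BP : Finset P) (BN : Finset (V → Fin c)) (f : (E → Bool) → Bool)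
    (A : Finset (Finset V)) : Prop :=
  (∀ X ∈ A, X.card ≤ l) ∧ A.card ≤ M ∧ (∀ π ∉ BP, f (pos π) = true → AccP A (K π)) ∧
    ∀ χ ∉ BN, AccN A χ → f (neg χ) = true

/-- all available functions are approximated -/
def AllApprox (l M : ℕ) (BP : Finset P) (BN : Finset (V → Fin c))
    (L : List ((E → Bool) → Bool)) : Prop :=
  ∀ f, Avail L f → ∃ A, Approx pos K neg l M BP BN f A

variable {pos K neg}

lemma Approx.mono {l M : ℕ} {BP BP' : Finset P} {BN BN' : Finset (V → Fin c)}
    {f : (E → Bool) → Bool} {A : Finset (Finset V)} (h : Approx pos K neg l M BP BN f A)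
    (h1 : BP ⊆ BP') (h2 : BN ⊆ BN') : Approx pos K neg l M BP' BN' f A :=
  ⟨h.1, h.2.1, fun π hπ => h.2.2.1 π fun h' => hπ (h1 h'), fun χ hχ => h.2.2.2 χ fun h' => hχ (h2 h')⟩

open Classical in
/-- the induction -/
theorem mon_appr {l p R : ℕ} (hl : l * (l - 1) ≤ c) (hl2 : 2 ≤ l) (hp : 2 ≤ p)
    (hvar : ∀ e : E, ∃ A : Finset (Finset V), (∀ X ∈ A, X.card ≤ l) ∧ A.card ≤ 1 ∧
      (∀ π, pos π e = true → AccP A (K π)) ∧ ∀ χ, AccN A χ → neg χ e = true)
    (hR : ∀ Y : Finset V, l < Y.card →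
      ((univ : Finset P).filter fun π => Y ⊆ K π).card ≤ R)
    {L : List ((E → Bool) → Bool)} (hL : Mon L) :
    ∃ (BP : Finset P) (BN : Finset (V → Fin c)),
      BP.card ≤ L.length * (((p * l) ^ l) ^ 2 * R) ∧
      BN.card * 2 ^ p ≤ L.length * (2 * ((p * l) ^ l) ^ 2 * c ^ Fintype.card V) ∧
      AllApprox pos K neg l ((p * l) ^ l) BP BN L := by
  have hM1 : 1 ≤ (p * l) ^ l := Nat.one_le_pow _ _ (by positivity)
  have hM2 : (p * l) ^ l ≤ ((p * l) ^ l) ^ 2 := Nat.le_self_pow (by norm_num) _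
  -- variables and constants
  have hbase : ∀ (BP : Finset P) (BN : Finset (V → Fin c)) (f : (E → Bool) → Bool),
      ((∃ i, f = fun x => x i) ∨ ∃ b, f = fun _ => b) →
      ∃ A, Approx pos K neg l ((p * l) ^ l) BP BN f A := by
    rintro BP BN f (⟨e, rfl⟩ | ⟨b, rfl⟩)
    · obtain ⟨A, h1, h2, h3, h4⟩ := hvar e
      exact ⟨A, h1, h2.trans hM1, fun π _ h => h3 π h, fun χ _ h => h4 χ h⟩
    · cases b with
      | false =>
        refine ⟨∅, by simp, by simp, fun π _ h => absurd h (by simp), fun χ _ h => ?_⟩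
        obtain ⟨X, hX, _⟩ := h
        simp at hX
      | true =>
        refine ⟨{∅}, by simp, by simpa using hM1, fun π _ _ => ⟨∅, by simp, empty_subset _⟩,
          fun χ _ _ => rfl⟩
  induction hL with
  | nil =>
    refine ⟨∅, ∅, by simp, by simp, fun f hf => ?_⟩
    rcases hf with h | h
    · simp at h
    · exact hbase _ _ f h
  | @and L f g _ hf hg ih =>
    obtain ⟨BP, BN, h1, h2, h3⟩ := ih
    obtain ⟨A, hA1, hA2, hA3, hA4⟩ := h3 f hf
    obtain ⟨B, hB1, hB2, hB3, hB4⟩ := h3 g hg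
    -- the joins
    set J := ((A ×ˢ B).image fun q => q.1 ∪ q.2).filter fun X => X.card ≤ l with hJ
    have hJs : ∀ X ∈ J, X.card ≤ l := fun X hX => (mem_filter.1 hX).2
    have hJc : J.card ≤ ((p * l) ^ l) ^ 2 := by
      calc J.card ≤ (A ×ˢ B).card := (Finset.card_filter_le _ _).trans Finset.card_image_le
        _ = A.card * B.card := card_product _ _
        _ ≤ (p * l) ^ l * (p * l) ^ l := Nat.mul_le_mul hA2 hB2
        _ = ((p * l) ^ l) ^ 2 := (sq _).symm
    obtain ⟨A', hA'1, hA'2, hA'3, hA'4⟩ := exists_pluck hl hp J.card J le_rfl hJs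
    set DP := (((A ×ˢ B).filter fun t => l < (t.1 ∪ t.2).card).biUnion fun t =>
      (univ : Finset P).filter fun π => t.1 ∪ t.2 ⊆ K π) with hDP
    set DN := (univ : Finset (V → Fin c)).filter fun χ => AccN A' χ ∧ ¬ AccN J χ with hDN
    have hDPc : DP.card ≤ ((p * l) ^ l) ^ 2 * R := by
      calc DP.card ≤ _ := Finset.card_biUnion_le
        _ ≤ ∑ _t ∈ (A ×ˢ B).filter fun t => l < (t.1 ∪ t.2).card, R := by
          apply Finset.sum_le_sum
          intro t ht
          exact hR _ (mem_filter.1 ht).2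
        _ = ((A ×ˢ B).filter fun t => l < (t.1 ∪ t.2).card).card * R := by
          rw [Finset.sum_const, smul_eq_mul]
        _ ≤ ((p * l) ^ l) ^ 2 * R := by
          apply Nat.mul_le_mul_right
          calc _ ≤ (A ×ˢ B).card := Finset.card_filter_le _ _
            _ = A.card * B.card := card_product _ _
            _ ≤ (p * l) ^ l * (p * l) ^ l := Nat.mul_le_mul hA2 hB2
            _ = ((p * l) ^ l) ^ 2 := (sq _).symm
    refine ⟨BP ∪ DP, BN ∪ DN, ?_, ?_, ?_⟩
    · calc (BP ∪ DP).card ≤ BP.card + DP.card := card_union_le _ _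
        _ ≤ L.length * (((p * l) ^ l) ^ 2 * R) + ((p * l) ^ l) ^ 2 * R := Nat.add_le_add h1 hDPc
        _ = _ := by rw [List.length_cons]; ring
    · calc (BN ∪ DN).card * 2 ^ p ≤ (BN.card + DN.card) * 2 ^ p :=
            Nat.mul_le_mul_right _ (card_union_le _ _)
        _ = BN.card * 2 ^ p + DN.card * 2 ^ p := by ring
        _ ≤ L.length * (2 * ((p * l) ^ l) ^ 2 * c ^ Fintype.card V) +
            2 * ((p * l) ^ l) ^ 2 * c ^ Fintype.card V := by
            apply Nat.add_le_add h2
            refine hA'4.trans (Nat.mul_le_mul_right _ ?_)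
            omega
        _ = _ := by rw [List.length_cons]; ring
    · intro f' hf'
      rcases hf' with h | h
      swap
      · exact hbase _ _ f' h
      rcases List.mem_cons.1 h with rfl | h
      · refine ⟨A', hA'1, hA'2, fun π hπ hfg => ?_, fun χ hχ hacc => ?_⟩
        · rw [Finset.mem_union, not_or] at hπ
          simp only [Bool.and_eq_true] at hfg
          obtain ⟨X, hX, hXK⟩ := hA3 π hπ.1 hfg.1
          obtain ⟨Y, hY, hYK⟩ := hB3 π hπ.1 hfg.2
          by_cases hc : (X ∪ Y).card ≤ l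
          · apply hA'3
            exact ⟨X ∪ Y, mem_filter.2 ⟨mem_image.2 ⟨(X, Y), mem_product.2 ⟨hX, hY⟩, rfl⟩, hc⟩,
              union_subset hXK hYK⟩
          · exfalso
            apply hπ.2
            rw [hDP, mem_biUnion]
            exact ⟨(X, Y), mem_filter.2 ⟨mem_product.2 ⟨hX, hY⟩, not_le.1 hc⟩,
              mem_filter.2 ⟨mem_univ _, union_subset hXK hYK⟩⟩
        · rw [Finset.mem_union, not_or] at hχ
          have hJχ : AccN J χ := by
            by_contra hne
            exact hχ.2 (mem_filter.2 ⟨mem_univ _, hacc, hne⟩)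
          obtain ⟨X, hX, hXχ⟩ := hJχ
          obtain ⟨⟨Y, Y'⟩, hq, rfl⟩ := mem_image.1 (mem_filter.1 hX).1
          rw [mem_product] at hq
          simp only [Bool.and_eq_true]
          exact ⟨hA4 χ hχ.1 ⟨Y, hq.1, hXχ.mono (by simp)⟩,
            hB4 χ hχ.1 ⟨Y', hq.2, hXχ.mono (by simp)⟩⟩
      · obtain ⟨A'', h''⟩ := h3 f' (Or.inl h)
        exact ⟨A'', h''.mono subset_union_left subset_union_left⟩
  | @or L f g _ hf hg ih =>
    obtain ⟨BP, BN, h1, h2, h3⟩ := ih
    obtain ⟨A, hA1, hA2, hA3, hA4⟩ := h3 f hf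
    obtain ⟨B, hB1, hB2, hB3, hB4⟩ := h3 g hg
    have hJs : ∀ X ∈ A ∪ B, X.card ≤ l := by
      intro X hX
      rcases Finset.mem_union.1 hX with h | h
      · exact hA1 X h
      · exact hB1 X h
    have hJc : (A ∪ B).card ≤ 2 * ((p * l) ^ l) ^ 2 := by
      have := Finset.card_union_le A B
      omega
    obtain ⟨A', hA'1, hA'2, hA'3, hA'4⟩ := exists_pluck hl hp (A ∪ B).card (A ∪ B) le_rfl hJs
    set DN := (univ : Finset (V → Fin c)).filter fun χ => AccN A' χ ∧ ¬ AccN (A ∪ B) χ with hDN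
    refine ⟨BP, BN ∪ DN, ?_, ?_, ?_⟩
    · refine h1.trans (Nat.mul_le_mul_right _ ?_)
      simp
    · calc (BN ∪ DN).card * 2 ^ p ≤ (BN.card + DN.card) * 2 ^ p :=
            Nat.mul_le_mul_right _ (card_union_le _ _)
        _ = BN.card * 2 ^ p + DN.card * 2 ^ p := by ring
        _ ≤ L.length * (2 * ((p * l) ^ l) ^ 2 * c ^ Fintype.card V) +
            2 * ((p * l) ^ l) ^ 2 * c ^ Fintype.card V := by
            apply Nat.add_le_add h2
            exact hA'4.trans (Nat.mul_le_mul_right _ hJc)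
        _ = _ := by rw [List.length_cons]; ring
    · intro f' hf'
      rcases hf' with h | h
      swap
      · exact hbase _ _ f' h
      rcases List.mem_cons.1 h with rfl | h
      · refine ⟨A', hA'1, hA'2, fun π hπ hfg => ?_, fun χ hχ hacc => ?_⟩
        · simp only [Bool.or_eq_true] at hfg
          apply hA'3
          rcases hfg with h' | h'
          · obtain ⟨X, hX, hXK⟩ := hA3 π hπ h'
            exact ⟨X, Finset.mem_union_left _ hX, hXK⟩
          · obtain ⟨X, hX, hXK⟩ := hB3 π hπ h'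
            exact ⟨X, Finset.mem_union_right _ hX, hXK⟩
        · rw [Finset.mem_union, not_or] at hχ
          have hJχ : AccN (A ∪ B) χ := by
            by_contra hne
            exact hχ.2 (mem_filter.2 ⟨mem_univ _, hacc, hne⟩)
          obtain ⟨X, hX, hXχ⟩ := hJχ
          simp only [Bool.or_eq_true]
          rcases Finset.mem_union.1 hX with h' | h'
          · exact Or.inl (hA4 χ hχ.1 ⟨X, h', hXχ⟩)
          · exact Or.inr (hB4 χ hχ.1 ⟨X, h', hXχ⟩)
      · obtain ⟨A'', h''⟩ := h3 f' (Or.inl h)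
        exact ⟨A'', h''.mono (Finset.Subset.refl _) Finset.subset_union_left⟩

open Classical in
/-- **The method of approximations for monotone programs.** -/
theorem mon_bound {l p R T : ℕ} (hl : l * (l - 1) ≤ c) (hl2 : 2 ≤ l) (hp : 2 ≤ p)
    (hvar : ∀ e : E, ∃ A : Finset (Finset V), (∀ X ∈ A, X.card ≤ l) ∧ A.card ≤ 1 ∧
      (∀ π, pos π e = true → AccP A (K π)) ∧ ∀ χ, AccN A χ → neg χ e = true)
    (hR : ∀ Y : Finset V, l < Y.card →
      ((univ : Finset P).filter fun π => Y ⊆ K π).card ≤ R)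
    {f : (E → Bool) → Bool} (hf : MonSize f T) (hpos : ∀ π, f (pos π) = true)
    (hneg : ∀ χ, f (neg χ) = false) :
    2 ^ p ≤ 4 * ((p * l) ^ l) ^ 2 * T ∨ Fintype.card P ≤ T * (((p * l) ^ l) ^ 2 * R) := by
  obtain ⟨L, hL, hLT, hav⟩ := hf
  obtain ⟨BP, BN, h1, h2, h3⟩ := mon_appr hl hl2 hp hvar hR hL
  obtain ⟨A, hA1, hA2, hA3, hA4⟩ := h3 f hav
  rcases Finset.eq_empty_or_nonempty A with hA | ⟨X, hX⟩
  · right
    have h4 : (univ : Finset P) ⊆ BP := by
      intro π _
      by_contra hπ
      obtain ⟨X, hX, _⟩ := hA3 π hπ (hpos π)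
      rw [hA] at hX
      simp at hX
    calc Fintype.card P = (univ : Finset P).card := rfl
      _ ≤ BP.card := Finset.card_le_card h4
      _ ≤ L.length * (((p * l) ^ l) ^ 2 * R) := h1
      _ ≤ T * (((p * l) ^ l) ^ 2 * R) := Nat.mul_le_mul_right _ hLT
  · left
    have hc0 : 0 < c := by
      have : 2 * 1 ≤ l * (l - 1) := Nat.mul_le_mul hl2 (by omega)
      omega
    have h4 : 2 * ((univ : Finset (V → Fin c)).filter fun χ =>
        ¬ Set.InjOn χ (X : Set V)).card ≤ (univ : Finset (V → Fin c)).card := by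
      apply card_not_rainbow univ (hA1 X hX) hl (Z := ∅)
      · intro u _ _ χ _ a
        exact mem_univ _
      · intro χ _
        simp
    have h5 : (univ : Finset (V → Fin c)).card ≤
        2 * ((univ : Finset (V → Fin c)).filter fun χ => Set.InjOn χ (X : Set V)).card := by
      have := Finset.card_filter_add_card_filter_not (s := (univ : Finset (V → Fin c)))
        (fun χ => Set.InjOn χ (X : Set V))
      omega
    have h6 : ((univ : Finset (V → Fin c)).filter fun χ => Set.InjOn χ (X : Set V)) ⊆ BN := by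
      intro χ hχ
      by_contra hne
      have := hA4 χ hne ⟨X, hX, (mem_filter.1 hχ).2⟩
      rw [hneg χ] at this
      exact absurd this (by decide)
    have h7 : (univ : Finset (V → Fin c)).card = c ^ Fintype.card V := by
      rw [card_univ, Fintype.card_fun, Fintype.card_fin]
    have h8 : c ^ Fintype.card V * 2 ^ p ≤ (4 * ((p * l) ^ l) ^ 2 * T) * c ^ Fintype.card V := by
      calc c ^ Fintype.card V * 2 ^ p ≤ (2 * BN.card) * 2 ^ p := by
            apply Nat.mul_le_mul_right
            rw [← h7]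
            exact h5.trans (Nat.mul_le_mul_left _ (Finset.card_le_card h6))
        _ = 2 * (BN.card * 2 ^ p) := by ring
        _ ≤ 2 * (L.length * (2 * ((p * l) ^ l) ^ 2 * c ^ Fintype.card V)) :=
            Nat.mul_le_mul_left _ h2
        _ ≤ 2 * (T * (2 * ((p * l) ^ l) ^ 2 * c ^ Fintype.card V)) := by gcongr
        _ = _ := by ring
    rw [mul_comm (c ^ Fintype.card V)] at h8
    exact Nat.le_of_mul_le_mul_right h8 (by positivity)

end

end Pool.Agent.NEG72
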