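import Pool.Agent.NEG72.WinDef
import Pool.Agent.NEG72.MonAppr

/-!
# The monotone bound for one window
-/

namespace Pool.Agent.NEG72

open Finset Pool.Agent.NegLim

lemma clq_iff {n k : ℕ} {x : Edge n → Bool} : clq n k x = true ↔
    ∃ S : Finset (Fin n), S.card = k ∧ ∀ e : Edge n, e.1.1 ∈ S → e.1.2 ∈ S → x e = true := by
  unfold clq
  exact decide_eq_true_iff

lemma nis_iff {n k : ℕ} {x : Edge n → Bool} : nis n k x = true ↔
    ∀ S : Finset (Fin n), S.card = k → ∃ e : Edge n, e.1.1 ∈ S ∧ e.1.2 ∈ S ∧ x e = true := by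
  unfold nis
  exact decide_eq_true_iff

lemma clq_not {n k : ℕ} (x : Edge n → Bool) : clq n k (fun e => !(x e)) = !(nis n k x) := by
  rw [Bool.eq_iff_iff, clq_iff, Bool.not_eq_true', ← Bool.not_eq_true, nis_iff]
  push Not
  constructor
  · rintro ⟨S, hS, h⟩
    exact ⟨S, hS, fun e h1 h2 => by simpa using h e h1 h2⟩
  · rintro ⟨S, hS, h⟩
    exact ⟨S, hS, fun e h1 h2 => by simpa using h e h1 h2⟩

section

variable {k Q b v : ℕ} (w : ℕ × ℕ)

lemma vx_lt (hw : ∀ i < k, w.1 + i * w.2 < 2 * Q) (hv : k * (2 * Q) * b ≤ v) (p : Fin k × Fin b) :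
    (p.1 * (2 * Q) + (w.1 + p.1 * w.2)) * b + p.2 < v := by
  have h1 := hw p.1 p.1.2
  have h2 : (p.1 : ℕ) + 1 ≤ k := p.1.2
  have h3 : (p.1 : ℕ) * (2 * Q) + (w.1 + p.1 * w.2) + 1 ≤ k * (2 * Q) := by
    calc (p.1 : ℕ) * (2 * Q) + (w.1 + p.1 * w.2) + 1 ≤ p.1 * (2 * Q) + 2 * Q := by omega
      _ = (p.1 + 1) * (2 * Q) := by ring
      _ ≤ k * (2 * Q) := Nat.mul_le_mul_right _ h2
  have h4 := p.2.2
  calc (p.1 * (2 * Q) + (w.1 + p.1 * w.2)) * b + p.2
      < (p.1 * (2 * Q) + (w.1 + p.1 * w.2)) * b + b := by omega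
    _ = (p.1 * (2 * Q) + (w.1 + p.1 * w.2) + 1) * b := by ring
    _ ≤ k * (2 * Q) * b := Nat.mul_le_mul_right _ h3
    _ ≤ v := hv

/-- the vertices of a window -/
def vx (hw : ∀ i < k, w.1 + i * w.2 < 2 * Q) (hv : k * (2 * Q) * b ≤ v) (p : Fin k × Fin b) :
    Fin v :=
  ⟨(p.1 * (2 * Q) + (w.1 + p.1 * w.2)) * b + p.2, vx_lt w hw hv p⟩

variable {w} (hw : ∀ i < k, w.1 + i * w.2 < 2 * Q) (hv : k * (2 * Q) * b ≤ v)

lemma vx_div (p : Fin k × Fin b) :
    (vx w hw hv p : ℕ) / b = p.1 * (2 * Q) + (w.1 + p.1 * w.2) := by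
  have hb : 0 < b := lt_of_le_of_lt (Nat.zero_le _) p.2.2
  show ((p.1 * (2 * Q) + (w.1 + p.1 * w.2)) * b + p.2) / b = _
  rw [mul_comm, Nat.mul_add_div hb, Nat.div_eq_of_lt p.2.2, add_zero]

lemma vx_part (p : Fin k × Fin b) : part Q b (vx w hw hv p) = p.1 := by
  have h1 := hw p.1 p.1.2
  unfold part
  rw [vx_div, mul_comm, Nat.mul_add_div (by omega), Nat.div_eq_of_lt h1, add_zero]

lemma vx_bl (p : Fin k × Fin b) : bl Q b (vx w hw hv p) = w.1 + p.1 * w.2 := by
  have h1 := hw p.1 p.1.2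
  unfold bl
  rw [vx_div, mul_comm, Nat.mul_add_mod, Nat.mod_eq_of_lt h1]

lemma vx_mod (p : Fin k × Fin b) : (vx w hw hv p : ℕ) % b = p.2 := by
  show ((p.1 * (2 * Q) + (w.1 + p.1 * w.2)) * b + p.2) % b = _
  rw [mul_comm, Nat.mul_add_mod, Nat.mod_eq_of_lt p.2.2]

lemma vx_inj : Function.Injective (vx w hw hv) := by
  intro p p' h
  have h1 := vx_part hw hv p
  have h2 := vx_part hw hv p'
  have h3 := vx_mod hw hv p
  have h4 := vx_mod hw hv p'
  rw [h] at h1 h3
  exact Prod.ext (Fin.ext (by omega)) (Fin.ext (by omega))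

lemma vx_surj {u : Fin v} (hb : 0 < b) (h1 : part Q b u < k)
    (h2 : bl Q b u = w.1 + part Q b u * w.2) :
    vx w hw hv (⟨part Q b u, h1⟩, ⟨u % b, Nat.mod_lt _ hb⟩) = u := by
  apply Fin.ext
  show (part Q b u * (2 * Q) + (w.1 + part Q b u * w.2)) * b + (u : ℕ) % b = u
  rw [← h2]
  unfold part bl
  have e1 : (u : ℕ) / b / (2 * Q) * (2 * Q) + (u : ℕ) / b % (2 * Q) = (u : ℕ) / b :=
    Nat.div_add_mod' _ _
  rw [e1]
  exact Nat.div_add_mod' _ _

lemma vx_lt_iff {p p' : Fin k × Fin b} (h : p.1 < p'.1) : vx w hw hv p < vx w hw hv p' := by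
  by_contra hne
  have h1 := part_mono (Q := Q) (b := b) (Fin.le_def.1 (not_lt.1 hne))
  rw [vx_part, vx_part] at h1
  exact absurd h1 (by exact_mod_cast (not_le.2 h))

lemma inWin_iff (hb : 0 < b) {e : Edge v} : InWin k Q b w e ↔
    ∃ p p' : Fin k × Fin b, p.1 < p'.1 ∧ e.1.1 = vx w hw hv p ∧ e.1.2 = vx w hw hv p' := by
  constructor
  · rintro ⟨h1, h2, h3, h4⟩
    refine ⟨(⟨part Q b e.1.1, h1.trans h2⟩, ⟨e.1.1 % b, Nat.mod_lt _ hb⟩),
      (⟨part Q b e.1.2, h2⟩, ⟨e.1.2 % b, Nat.mod_lt _ hb⟩), ?_, ?_, ?_⟩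
    · exact h1
    · exact (vx_surj hw hv hb (h1.trans h2) h3).symm
    · exact (vx_surj hw hv hb h2 h4).symm
  · rintro ⟨p, p', h, h1, h2⟩
    unfold InWin
    rw [h1, h2, vx_part, vx_part, vx_bl, vx_bl]
    exact ⟨h, p'.1.2, rfl, rfl⟩

open Classical in
/-- the clique of a transversal -/
noncomputable def tpos (τ : Fin k → Fin b) (e : Edge v) : Bool :=
  decide (∃ i j, e.1.1 = vx w hw hv (i, τ i) ∧ e.1.2 = vx w hw hv (j, τ j))

open Classical in
/-- the complete multipartite graph of a colouring -/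
noncomputable def tneg {c : ℕ} (χ : Fin k × Fin b → Fin c) (e : Edge v) : Bool :=
  decide (∃ p p', e.1.1 = vx w hw hv p ∧ e.1.2 = vx w hw hv p' ∧ χ p ≠ χ p')

open Classical in
/-- the clique function of a window -/
noncomputable def winClq (v k Q b : ℕ) (w : ℕ × ℕ) (x : Edge v → Bool) : Bool :=
  clq v k fun e => decide (InWin k Q b w e) && x e

open Classical in
lemma winClq_pos (τ : Fin k → Fin b) : winClq v k Q b w (tpos hw hv τ) = true := by
  unfold winClq
  rw [clq_iff]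
  have hi : Function.Injective fun i : Fin k => vx w hw hv (i, τ i) := by
    intro i j h
    exact congrArg Prod.fst (vx_inj hw hv h)
  refine ⟨univ.image fun i : Fin k => vx w hw hv (i, τ i), ?_, ?_⟩
  · rw [Finset.card_image_of_injective _ hi, card_univ, Fintype.card_fin]
  · intro e h1 h2
    obtain ⟨i, _, hi'⟩ := mem_image.1 h1
    obtain ⟨j, _, hj'⟩ := mem_image.1 h2
    have hb : 0 < b := lt_of_le_of_lt (Nat.zero_le _) (τ i).2
    have hij : i < j := by
      rcases lt_trichotomy i j with h | h | h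
      · exact h
      · subst h
        rw [hi'] at hj'
        exact absurd e.2 (by rw [hj']; exact lt_irrefl _)
      · have := vx_lt_iff hw hv (p := (j, τ j)) (p' := (i, τ i)) h
        rw [hi', hj'] at this
        exact absurd e.2 (not_lt.2 this.le)
    rw [Bool.and_eq_true]
    refine ⟨decide_eq_true ((inWin_iff hw hv hb).2
      ⟨(i, τ i), (j, τ j), hij, hi'.symm, hj'.symm⟩), ?_⟩
    unfold tpos
    rw [decide_eq_true_eq]
    exact ⟨i, j, hi'.symm, hj'.symm⟩

open Classical in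
lemma winClq_neg {c : ℕ} (hk : 2 ≤ k) (hb : 0 < b) (hc : c < k) (χ : Fin k × Fin b → Fin c) :
    winClq v k Q b w (tneg hw hv χ) = false := by
  rw [← Bool.not_eq_true]
  unfold winClq
  rw [clq_iff]
  rintro ⟨S, hS, h⟩
  have h1 : ∀ e : Edge v, e.1.1 ∈ S → e.1.2 ∈ S →
      ∃ p p', e.1.1 = vx w hw hv p ∧ e.1.2 = vx w hw hv p' ∧ χ p ≠ χ p' := by
    intro e h1 h2
    have h3 := h e h1 h2
    rw [Bool.and_eq_true] at h3
    have h4 := h3.2
    unfold tneg at h4
    rwa [decide_eq_true_eq] at h4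
  have h2 : ∀ u ∈ S, ∃ p, vx w hw hv p = u := by
    intro u hu
    obtain ⟨u', hu', hne⟩ := Finset.exists_mem_ne (by omega : 1 < S.card) u
    rcases lt_or_gt_of_ne hne with h3 | h3
    · obtain ⟨p, p', _, hp', _⟩ := h1 ⟨(u', u), h3⟩ hu' hu
      exact ⟨p', hp'.symm⟩
    · obtain ⟨p, p', hp, _, _⟩ := h1 ⟨(u, u'), h3⟩ hu hu'
      exact ⟨p, hp.symm⟩
  haveI : Nonempty (Fin k × Fin b) := ⟨(⟨0, by omega⟩, ⟨0, hb⟩)⟩
  choose! pf hpf using h2
  obtain ⟨a, ha, a', ha', hne, hχ⟩ := Finset.exists_ne_map_eq_of_card_lt_of_maps_to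
    (s := S) (t := (univ : Finset (Fin c))) (f := fun u => χ (pf u)) (by simpa [hS] using hc)
    (fun _ _ => mem_univ _)
  have key : ∀ a ∈ S, ∀ a' ∈ S, a < a' → χ (pf a) = χ (pf a') → False := by
    intro a ha a' ha' hlt hχ
    obtain ⟨p, p', hp, hp', hne'⟩ := h1 ⟨(a, a'), hlt⟩ ha ha'
    have e1 : pf a = p := vx_inj hw hv ((hpf a ha).trans hp)
    have e2 : pf a' = p' := vx_inj hw hv ((hpf a' ha').trans hp')
    rw [e1, e2] at hχ
    exact hne' hχ
  rcases lt_or_gt_of_ne hne with h3 | h3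
  · exact key a ha a' ha' h3 hχ
  · exact key a' ha' a ha h3 hχ.symm

/-- the graph of a transversal -/
def tgraph (τ : Fin k → Fin b) : Finset (Fin k × Fin b) := univ.image fun i => (i, τ i)

lemma mem_tgraph {τ : Fin k → Fin b} {p : Fin k × Fin b} : p ∈ tgraph τ ↔ τ p.1 = p.2 := by
  unfold tgraph
  rw [mem_image]
  constructor
  · rintro ⟨i, _, rfl⟩
    rfl
  · intro h
    exact ⟨p.1, mem_univ _, Prod.ext rfl h⟩

open Classical in
lemma card_tgraph {l : ℕ} {Y : Finset (Fin k × Fin b)} (hY : l < Y.card) :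
    ((univ : Finset (Fin k → Fin b)).filter fun τ => Y ⊆ tgraph τ).card ≤ b ^ (k - (l + 1)) := by
  rcases Finset.eq_empty_or_nonempty
    ((univ : Finset (Fin k → Fin b)).filter fun τ => Y ⊆ tgraph τ) with h | ⟨τ0, h0⟩
  · rw [h]
    simp
  rw [mem_filter] at h0
  set I := Y.image Prod.fst with hI
  have hIc : l + 1 ≤ I.card := by
    rw [hI, Finset.card_image_of_injOn]
    · exact hY
    · intro p hp p' hp' h
      have h1 := mem_tgraph.1 (h0.2 hp)
      have h2 := mem_tgraph.1 (h0.2 hp')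
      rw [h] at h1
      exact Prod.ext h (h1.symm.trans h2)
  have hsub : ((univ : Finset (Fin k → Fin b)).filter fun τ => Y ⊆ tgraph τ) ⊆
      Fintype.piFinset fun i => if i ∈ I then {τ0 i} else univ := by
    intro τ hτ
    rw [mem_filter] at hτ
    rw [Fintype.mem_piFinset]
    intro i
    split_ifs with hi
    · obtain ⟨p, hp, rfl⟩ := mem_image.1 hi
      rw [mem_singleton, mem_tgraph.1 (hτ.2 hp), mem_tgraph.1 (h0.2 hp)]
    · exact mem_univ _
  refine (Finset.card_le_card hsub).trans ?_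
  rw [Fintype.card_piFinset]
  have h1 : ∀ i, (if i ∈ I then ({τ0 i} : Finset (Fin b)) else univ).card =
      if i ∈ I then 1 else b := by
    intro i
    split_ifs
    · simp
    · rw [card_univ, Fintype.card_fin]
  rw [Finset.prod_congr rfl fun i _ => h1 i, Finset.prod_ite, Finset.prod_const_one, one_mul,
    Finset.prod_const]
  have hb : 0 < b := by
    rcases Nat.eq_zero_or_pos b with hb | hb
    · subst hb
      obtain ⟨p, hp⟩ := Finset.card_pos.1 (lt_of_le_of_lt (Nat.zero_le _) hY)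
      exact p.2.elim0
    · exact hb
  apply Nat.pow_le_pow_right hb
  have h2 : ((univ : Finset (Fin k)).filter fun i => i ∉ I).card = k - I.card := by
    have h3 : ((univ : Finset (Fin k)).filter fun i => i ∉ I) = univ \ I := by
      ext i
      simp
    rw [h3, Finset.card_sdiff_of_subset (subset_univ _), card_univ, Fintype.card_fin]
  rw [h2]
  omega

include hw hv in
/-- **The monotone bound for one window.** -/
theorem win_bound {l p T : ℕ} (hk : 2 ≤ k) (hb : 0 < b) (hl : l * (l - 1) ≤ k - 1) (hl2 : 2 ≤ l)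
    (hp : 2 ≤ p) (hT : MonSize (winClq v k Q b w) T) :
    2 ^ p ≤ 4 * ((p * l) ^ l) ^ 2 * T ∨
      b ^ k ≤ T * (((p * l) ^ l) ^ 2 * b ^ (k - (l + 1))) := by
  have h := mon_bound (pos := tpos hw hv) (K := tgraph) (neg := tneg (c := k - 1) hw hv)
    (R := b ^ (k - (l + 1))) hl hl2 hp ?_ ?_ hT (winClq_pos hw hv)
    (winClq_neg hw hv hk hb (by omega))
  · rwa [Fintype.card_fun, Fintype.card_fin, Fintype.card_fin] at h
  · intro e
    by_cases he : ∃ p p' : Fin k × Fin b, p ≠ p' ∧ e.1.1 = vx w hw hv p ∧ e.1.2 = vx w hw hv p'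
    · obtain ⟨p, p', hne, h1, h2⟩ := he
      refine ⟨{{p, p'}}, ?_, by simp, ?_, ?_⟩
      · intro X hX
        rw [mem_singleton] at hX
        rw [hX]
        exact Finset.card_le_two.trans hl2
      · intro τ hτ
        unfold tpos at hτ
        rw [decide_eq_true_eq] at hτ
        obtain ⟨i, j, h3, h4⟩ := hτ
        have e1 : p = (i, τ i) := vx_inj hw hv (h1.symm.trans h3)
        have e2 : p' = (j, τ j) := vx_inj hw hv (h2.symm.trans h4)
        refine ⟨{p, p'}, by simp, ?_⟩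
        intro a ha
        rw [mem_insert, mem_singleton] at ha
        rw [mem_tgraph]
        rcases ha with rfl | rfl
        · rw [e1]
        · rw [e2]
      · intro χ hχ
        obtain ⟨X, hX, hXχ⟩ := hχ
        rw [mem_singleton] at hX
        subst hX
        unfold tneg
        rw [decide_eq_true_eq]
        refine ⟨p, p', h1, h2, fun h3 => hne ?_⟩
        exact hXχ (by simp) (by simp) h3
    · refine ⟨∅, by simp, by simp, ?_, ?_⟩
      · intro τ hτ
        unfold tpos at hτ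
        rw [decide_eq_true_eq] at hτ
        obtain ⟨i, j, h3, h4⟩ := hτ
        exfalso
        apply he
        refine ⟨(i, τ i), (j, τ j), ?_, h3, h4⟩
        intro h5
        rw [h5, ← h4] at h3
        exact absurd e.2 (by rw [h3]; exact lt_irrefl _)
      · intro χ hχ
        obtain ⟨X, hX, _⟩ := hχ
        simp at hX
  · intro Y hY
    exact card_tgraph hY

end

end Pool.Agent.NEG72
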