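import Pool.Agent.NEG72.Sun

/-!
# Plucking
-/

namespace Pool.Agent.NEG72

open Finset

variable {V : Type*} [Fintype V] [DecidableEq V] {c : ℕ}

/-- the family accepts the clique `K` -/
def AccP (A : Finset (Finset V)) (K : Finset V) : Prop := ∃ X ∈ A, X ⊆ K

/-- the family accepts the colouring `χ` -/
def AccN (A : Finset (Finset V)) (χ : V → Fin c) : Prop := ∃ X ∈ A, Set.InjOn χ (X : Set V)

open Classical in
lemma card_eq_color (S : Finset (V → Fin c)) {u v : V} (huv : u ≠ v)
    (hS : ∀ χ ∈ S, ∀ a, Function.update χ u a ∈ S) :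
    (S.filter fun χ => χ u = χ v).card * c ≤ S.card := by
  have h1 : ((S.filter fun χ => χ u = χ v) ×ˢ (univ : Finset (Fin c))).card ≤ S.card := by
    apply Finset.card_le_card_of_injOn (fun q => Function.update q.1 u q.2)
    · intro q hq
      rw [mem_coe, mem_product, mem_filter] at hq
      exact hS q.1 hq.1.1 q.2
    · intro q hq q' hq' h
      rw [mem_coe, mem_product, mem_filter] at hq hq'
      simp only at h
      have h2 : q.2 = q'.2 := by
        have := congrFun h u
        simpa using this
      have h3 : q.1 v = q'.1 v := by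
        have := congrFun h v
        rwa [Function.update_of_ne huv.symm, Function.update_of_ne huv.symm] at this
      refine Prod.ext ?_ h2
      funext w
      by_cases hw : w = u
      · rw [hw, hq.1.2, hq'.1.2, h3]
      · have := congrFun h w
        rwa [Function.update_of_ne hw, Function.update_of_ne hw] at this
  rw [card_product, card_univ, Fintype.card_fin] at h1
  exact h1

open Classical in
/-- half of the colourings make the petal rainbow -/
lemma card_not_rainbow (S : Finset (V → Fin c)) {X Z : Finset V} {l : ℕ} (hX : X.card ≤ l)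
    (hl : l * (l - 1) ≤ c) (hS : ∀ u ∈ X, u ∉ Z → ∀ χ ∈ S, ∀ a, Function.update χ u a ∈ S)
    (hZ : ∀ χ ∈ S, Set.InjOn χ (Z : Set V)) :
    2 * (S.filter fun χ => ¬ Set.InjOn χ (X : Set V)).card ≤ S.card := by
  rcases Nat.eq_zero_or_pos c with hc | hc
  · -- no colours: no vertices or no colourings
    subst hc
    have hX1 : X.card ≤ 1 := by
      have h1 : l * (l - 1) = 0 := by omega
      rcases Nat.mul_eq_zero.1 h1 with h | h <;> omega
    have h2 : (S.filter fun χ => ¬ Set.InjOn χ (X : Set V)) = ∅ := by
      rw [Finset.filter_eq_empty_iff]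
      intro χ _ h
      apply h
      intro a ha b hb _
      exact Finset.card_le_one.1 hX1 a ha b hb
    rw [h2]
    simp
  set P := (X.powersetCard 2).filter fun Q => ¬ Q ⊆ Z with hP
  have h1 : (S.filter fun χ => ¬ Set.InjOn χ (X : Set V)) ⊆
      P.biUnion fun Q => S.filter fun χ => ¬ Set.InjOn χ (Q : Set V) := by
    intro χ hχ
    rw [mem_filter] at hχ
    rw [mem_biUnion]
    obtain ⟨hχS, hχ2⟩ := hχ
    rw [Set.InjOn] at hχ2
    push Not at hχ2
    obtain ⟨u, hu, v, hv, huv, hne⟩ := hχ2
    refine ⟨{u, v}, ?_, ?_⟩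
    · rw [hP, mem_filter, mem_powersetCard]
      refine ⟨⟨?_, Finset.card_pair hne⟩, ?_⟩
      · intro w hw
        rw [mem_insert, mem_singleton] at hw
        rcases hw with rfl | rfl
        · exact hu
        · exact hv
      · intro hsub
        exact hne (hZ χ hχS (hsub (by simp)) (hsub (by simp)) huv)
    · rw [mem_filter]
      refine ⟨hχS, fun h => hne (h (by simp) (by simp) huv)⟩
  have h2 : ∀ Q ∈ P, (S.filter fun χ => ¬ Set.InjOn χ (Q : Set V)).card * c ≤ S.card := by
    intro Q hQ
    rw [hP, mem_filter, mem_powersetCard] at hQ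
    obtain ⟨⟨hQX, hQ2⟩, hQZ⟩ := hQ
    obtain ⟨u, hu, huZ⟩ := Finset.not_subset.1 hQZ
    obtain ⟨v, hv, hvu⟩ : ∃ v ∈ Q, v ≠ u := by
      by_contra hcon
      push Not at hcon
      have : Q.card ≤ 1 := Finset.card_le_one.2 fun a ha b hb => (hcon a ha).trans (hcon b hb).symm
      omega
    have h3 : Q = {u, v} := by
      symm
      apply Finset.eq_of_subset_of_card_le
      · intro w hw
        rw [mem_insert, mem_singleton] at hw
        rcases hw with rfl | rfl
        · exact hu
        · exact hv
      · rw [hQ2, Finset.card_pair hvu.symm]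
    have h4 := card_eq_color S hvu.symm (hS u (hQX hu) huZ)
    refine le_trans (Nat.mul_le_mul_right _ (Finset.card_le_card ?_)) h4
    intro χ hχ
    rw [mem_filter] at hχ ⊢
    refine ⟨hχ.1, ?_⟩
    by_contra hne
    apply hχ.2
    rw [h3]
    intro a ha b hb hab
    rw [mem_coe, mem_insert, mem_singleton] at ha hb
    rcases ha with rfl | rfl <;> rcases hb with rfl | rfl
    · rfl
    · exact absurd hab hne
    · exact absurd hab.symm hne
    · rfl
  have h5 : 2 * P.card ≤ c := by
    have h6 : P.card ≤ X.card.choose 2 := by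
      rw [← Finset.card_powersetCard]
      exact Finset.card_le_card (Finset.filter_subset _ _)
    have h7 : X.card.choose 2 ≤ l.choose 2 := Nat.choose_le_choose 2 hX
    have h8 : 2 * l.choose 2 ≤ l * (l - 1) := by
      rw [Nat.choose_two_right]
      exact Nat.mul_div_le _ _
    omega
  have h9 : (S.filter fun χ => ¬ Set.InjOn χ (X : Set V)).card * c ≤ P.card * S.card := by
    calc _ ≤ (∑ Q ∈ P, (S.filter fun χ => ¬ Set.InjOn χ (Q : Set V)).card) * c := by
          apply Nat.mul_le_mul_right
          exact (Finset.card_le_card h1).trans Finset.card_biUnion_le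
      _ = ∑ Q ∈ P, (S.filter fun χ => ¬ Set.InjOn χ (Q : Set V)).card * c := by
          rw [Finset.sum_mul]
      _ ≤ ∑ _Q ∈ P, S.card := Finset.sum_le_sum h2
      _ = P.card * S.card := by rw [Finset.sum_const, smul_eq_mul]
  have h10 : 2 * (S.filter fun χ => ¬ Set.InjOn χ (X : Set V)).card * c ≤ S.card * c := by
    calc _ = 2 * ((S.filter fun χ => ¬ Set.InjOn χ (X : Set V)).card * c) := by ring
      _ ≤ 2 * (P.card * S.card) := Nat.mul_le_mul_left _ h9
      _ = (2 * P.card) * S.card := by ring
      _ ≤ c * S.card := Nat.mul_le_mul_right _ h5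
      _ = S.card * c := mul_comm _ _
  exact Nat.le_of_mul_le_mul_right h10 hc

open Classical in
/-- the colourings which are rainbow on the core and on no petal -/
lemma card_sun (Z : Finset V) {l : ℕ} (hl : l * (l - 1) ≤ c) (S : Finset (Finset V)) :
    (∀ X ∈ S, X.card ≤ l) → IsSun S Z →
    ((univ : Finset (V → Fin c)).filter fun χ => Set.InjOn χ (Z : Set V) ∧
      ∀ X ∈ S, ¬ Set.InjOn χ (X : Set V)).card * 2 ^ S.card ≤ c ^ Fintype.card V := by
  induction S using Finset.induction_on with
  | empty =>
    intro _ _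
    rw [card_empty, pow_zero, mul_one]
    calc _ ≤ (univ : Finset (V → Fin c)).card := Finset.card_filter_le _ _
      _ = c ^ Fintype.card V := by
        rw [card_univ, Fintype.card_fun, Fintype.card_fin]
  | insert X S hXS ih =>
    intro hcard hsun
    have ih' := ih (fun Y hY => hcard Y (mem_insert_of_mem hY))
      ⟨fun Y hY => hsun.1 Y (mem_insert_of_mem hY),
        fun Y hY Y' hY' => hsun.2 Y (mem_insert_of_mem hY) Y' (mem_insert_of_mem hY')⟩
    set T := (univ : Finset (V → Fin c)).filter fun χ => Set.InjOn χ (Z : Set V) ∧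
      ∀ X ∈ S, ¬ Set.InjOn χ (X : Set V) with hT
    have h1 : ((univ : Finset (V → Fin c)).filter fun χ => Set.InjOn χ (Z : Set V) ∧
        ∀ Y ∈ insert X S, ¬ Set.InjOn χ (Y : Set V)) =
        T.filter fun χ => ¬ Set.InjOn χ (X : Set V) := by
      ext χ
      simp only [hT, mem_filter, mem_univ, true_and, mem_insert, forall_eq_or_imp]
      tauto
    have hupd : ∀ (Y : Finset V) (u : V) (χ : V → Fin c) (a : Fin c), u ∉ Y →
        (Set.InjOn (Function.update χ u a) (Y : Set V) ↔ Set.InjOn χ (Y : Set V)) := by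
      intro Y u χ a hu
      apply Set.EqOn.injOn_iff
      intro w hw
      rw [Function.update_of_ne]
      rintro rfl
      exact hu hw
    have h2 : 2 * (T.filter fun χ => ¬ Set.InjOn χ (X : Set V)).card ≤ T.card := by
      apply card_not_rainbow T (hcard X (mem_insert_self _ _)) hl (Z := Z)
      · intro u hu huZ χ hχ a
        rw [hT, mem_filter] at hχ ⊢
        refine ⟨mem_univ _, (hupd Z u χ a huZ).2 hχ.2.1, fun Y hY => ?_⟩
        rw [hupd Y u χ a]
        · exact hχ.2.2 Y hY
        · intro huY
          have h3 := hsun.2 X (mem_insert_self _ _) Y (mem_insert_of_mem hY)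
            (fun h => hXS (h ▸ hY))
          apply huZ
          rw [← h3, mem_inter]
          exact ⟨hu, huY⟩
      · intro χ hχ
        rw [hT, mem_filter] at hχ
        exact hχ.2.1
    rw [h1, Finset.card_insert_of_notMem hXS, pow_succ]
    calc _ = (2 * (T.filter fun χ => ¬ Set.InjOn χ (X : Set V)).card) * 2 ^ S.card := by ring
      _ ≤ T.card * 2 ^ S.card := Nat.mul_le_mul_right _ h2
      _ ≤ _ := ih'

open Classical in
/-- **Plucking.** A family of sets of size at most `l` can be replaced by a family of at most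
`(p * l) ^ l` such sets which accepts at least the same cliques and only few more colourings. -/
theorem exists_pluck {l p : ℕ} (hl : l * (l - 1) ≤ c) (hp : 2 ≤ p) :
    ∀ (N : ℕ) (A : Finset (Finset V)), A.card ≤ N → (∀ X ∈ A, X.card ≤ l) →
    ∃ B : Finset (Finset V), (∀ X ∈ B, X.card ≤ l) ∧ B.card ≤ (p * l) ^ l ∧
      (∀ K, AccP A K → AccP B K) ∧
      ((univ : Finset (V → Fin c)).filter fun χ => AccN B χ ∧ ¬ AccN A χ).card * 2 ^ p ≤
        N * c ^ Fintype.card V := by
  intro N
  induction N with
  | zero =>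
    intro A hA hl'
    rw [Nat.le_zero, Finset.card_eq_zero] at hA
    subst hA
    refine ⟨∅, by simp, by simp, fun K h => h, ?_⟩
    have : ((univ : Finset (V → Fin c)).filter fun χ => AccN (∅ : Finset (Finset V)) χ ∧
        ¬ AccN (∅ : Finset (Finset V)) χ) = ∅ := by
      rw [Finset.filter_eq_empty_iff]
      intro χ _ h
      exact h.2 h.1
    rw [this]
    simp
  | succ N ih =>
    intro A hA hAl
    by_cases hM : A.card ≤ (p * l) ^ l
    · refine ⟨A, hAl, hM, fun K h => h, ?_⟩
      have : ((univ : Finset (V → Fin c)).filter fun χ => AccN A χ ∧ ¬ AccN A χ) = ∅ := by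
        rw [Finset.filter_eq_empty_iff]
        intro χ _ h
        exact h.2 h.1
      rw [this]
      simp
    push Not at hM
    obtain ⟨S, hSA, hSp, Z, hsun⟩ := sunflower (by omega : 1 ≤ p) l A hAl hM
    have hZl : Z.card ≤ l := by
      obtain ⟨X, hX⟩ : S.Nonempty := by
        rw [← Finset.card_pos]
        omega
      exact (Finset.card_le_card (hsun.1 X hX)).trans (hAl X (hSA hX))
    obtain ⟨B, hB1, hB2, hB3, hB4⟩ := ih (insert Z (A \ S)) (by
      have h1 := Finset.card_insert_le Z (A \ S)
      have h2 := Finset.card_sdiff_add_card_eq_card hSA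
      omega) (by
      intro X hX
      rcases Finset.mem_insert.1 hX with rfl | hX
      · exact hZl
      · exact hAl X (mem_sdiff.1 hX).1)
    refine ⟨B, hB1, hB2, ?_, ?_⟩
    · rintro K ⟨X, hX, hXK⟩
      apply hB3
      by_cases hXS : X ∈ S
      · exact ⟨Z, mem_insert_self _ _, (hsun.1 X hXS).trans hXK⟩
      · exact ⟨X, mem_insert_of_mem (mem_sdiff.2 ⟨hX, hXS⟩), hXK⟩
    · have h1 : ((univ : Finset (V → Fin c)).filter fun χ => AccN B χ ∧ ¬ AccN A χ) ⊆
          ((univ : Finset (V → Fin c)).filter fun χ => AccN B χ ∧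
            ¬ AccN (insert Z (A \ S)) χ) ∪
          ((univ : Finset (V → Fin c)).filter fun χ => Set.InjOn χ (Z : Set V) ∧
            ∀ X ∈ S, ¬ Set.InjOn χ (X : Set V)) := by
        intro χ hχ
        rw [mem_filter] at hχ
        rw [mem_union, mem_filter, mem_filter]
        by_cases h : AccN (insert Z (A \ S)) χ
        · right
          refine ⟨mem_univ _, ?_, ?_⟩
          · obtain ⟨X, hX, hXχ⟩ := h
            rcases Finset.mem_insert.1 hX with rfl | hX
            · exact hXχ
            · exact absurd ⟨X, (mem_sdiff.1 hX).1, hXχ⟩ hχ.2.2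
          · intro X hX hXχ
            exact hχ.2.2 ⟨X, hSA hX, hXχ⟩
        · exact Or.inl ⟨mem_univ _, hχ.2.1, h⟩
      have h2 := card_sun (c := c) Z hl S (fun X hX => hAl X (hSA hX)) hsun
      rw [hSp] at h2
      calc _ ≤ (((univ : Finset (V → Fin c)).filter fun χ => AccN B χ ∧
            ¬ AccN (insert Z (A \ S)) χ).card +
          ((univ : Finset (V → Fin c)).filter fun χ => Set.InjOn χ (Z : Set V) ∧
            ∀ X ∈ S, ¬ Set.InjOn χ (X : Set V)).card) * 2 ^ p :=
            Nat.mul_le_mul_right _ ((Finset.card_le_card h1).trans (Finset.card_union_le _ _))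
        _ ≤ N * c ^ Fintype.card V + c ^ Fintype.card V := by
            rw [add_mul]
            exact Nat.add_le_add hB4 h2
        _ = (N + 1) * c ^ Fintype.card V := by ring

end Pool.Agent.NEG72
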