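import Pool.Agent.NEG72.Circ
import Pool.Agent.NEG72.Pluck

/-!
# The method of approximations for the monotone part of a circuit
-/

namespace Pool.Agent.NEG72

open Finset

/-- the pairs of vertices -/
abbrev Pair (n : ℕ) : Type := {e : Fin n × Fin n // e.1 < e.2}

/-- an input in which some variables are constants -/
def inst {X : Type} {n : ℕ} (r : X → Bool ⊕ Pair n) (x : Pair n → Bool) : X → Bool :=
  fun v => match r v with
    | .inl b => b
    | .inr e => x e

/-- the clique on `K` -/
def posIn {n : ℕ} (K : Finset (Fin n)) : Pair n → Bool :=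
  fun e => decide (e.1.1 ∈ K) && decide (e.1.2 ∈ K)

/-- the complete multipartite graph of a colouring -/
def negIn {n c : ℕ} (χ : Fin n → Fin c) : Pair n → Bool :=
  fun e => decide (χ e.1.1 ≠ χ e.1.2)

section

variable {X : Type} {n c : ℕ} (C : Circuit X) (z : ℕ → Bool) (r : X → Bool ⊕ Pair n)
  {l p : ℕ} (hl : l * (l - 1) ≤ c) (hp : 2 ≤ p)

open Classical in
/-- the plucked family -/
noncomputable def pl (A : Finset (Finset (Fin n))) : Finset (Finset (Fin n)) :=
  if h : ∀ X ∈ A, X.card ≤ l then (exists_pluck hl hp A.card A le_rfl h).choose else ∅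

open Classical in
lemma pl_spec {A : Finset (Finset (Fin n))} (h : ∀ X ∈ A, X.card ≤ l) :
    (∀ X ∈ pl hl hp A, X.card ≤ l) ∧ (pl hl hp A).card ≤ (p * l) ^ l ∧
      (∀ K, AccP A K → AccP (pl hl hp A) K) ∧
      ((univ : Finset (Fin n → Fin c)).filter fun χ =>
        AccN (pl hl hp A) χ ∧ ¬ AccN A χ).card * 2 ^ p ≤
        A.card * c ^ Fintype.card (Fin n) := by
  unfold pl
  rw [dif_pos h]
  exact (exists_pluck hl hp A.card A le_rfl h).choose_spec

/-- the joins of size at most `l` -/
def joins (l : ℕ) (A B : Finset (Finset (Fin n))) : Finset (Finset (Fin n)) :=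
  ((A ×ˢ B).image fun q => q.1 ∪ q.2).filter fun X => X.card ≤ l

/-- the family of a constant -/
def cfam (n : ℕ) (b : Bool) : Finset (Finset (Fin n)) := if b then {∅} else ∅

open Classical in
/-- the approximators -/
noncomputable def app (k : ℕ) : Finset (Finset (Fin n)) :=
  match C.gate k with
  | .input v => match r v with
    | .inl b => cfam n b
    | .inr e => {{e.1.1, e.1.2}}
  | .const b => cfam n b
  | .not _ => cfam n (z k)
  | .or i j => pl hl hp ((if _ : i < k then app i else ∅) ∪ (if _ : j < k then app j else ∅))
  | .and i j => pl hl hp (joins l (if _ : i < k then app i else ∅)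
      (if _ : j < k then app j else ∅))
termination_by k

open Classical in
/-- the approximator of an argument -/
noncomputable def arg (k i : ℕ) : Finset (Finset (Fin n)) :=
  if i < k then app C z r hl hp i else ∅

/-- the family before plucking -/
noncomputable def raw (k : ℕ) : Finset (Finset (Fin n)) :=
  match C.gate k with
  | .or i j => arg C z r hl hp k i ∪ arg C z r hl hp k j
  | .and i j => joins l (arg C z r hl hp k i) (arg C z r hl hp k j)
  | _ => ∅

lemma app_size (hl2 : 2 ≤ l) (k : ℕ) :
    (∀ X ∈ app C z r hl hp k, X.card ≤ l) ∧ (app C z r hl hp k).card ≤ (p * l) ^ l := by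
  have h1 : 1 ≤ (p * l) ^ l := Nat.one_le_pow _ _ (by positivity)
  have hc : ∀ b, (∀ X ∈ cfam n b, X.card ≤ l) ∧ (cfam n b).card ≤ (p * l) ^ l := by
    intro b
    cases b with
    | false => simp [cfam]
    | true => simpa [cfam] using h1
  induction k using Nat.strong_induction_on with
  | _ k ih =>
    have harg : ∀ i, ∀ X ∈ (if _ : i < k then app C z r hl hp i else ∅ :
        Finset (Finset (Fin n))), X.card ≤ l := by
      intro i X hX
      split_ifs at hX with h
      · exact (ih i h).1 X hX
      · simp at hX
    rw [app]
    cases hg : C.gate k with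
    | input v =>
      simp only
      cases hv : r v with
      | inl b => exact hc b
      | inr e =>
        refine ⟨?_, by simpa using h1⟩
        intro X hX
        simp only [mem_singleton] at hX
        rw [hX]
        exact Finset.card_le_two.trans hl2
    | const b => exact hc b
    | not i => exact hc _
    | or i j =>
      simp only
      have h := pl_spec hl hp (A := (if _ : i < k then app C z r hl hp i else ∅) ∪
        (if _ : j < k then app C z r hl hp j else ∅)) (by
          intro X hX
          rcases mem_union.1 hX with h | h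
          · exact harg i X h
          · exact harg j X h)
      exact ⟨h.1, h.2.1⟩
    | and i j =>
      simp only
      have h := pl_spec hl hp (A := joins l (if _ : i < k then app C z r hl hp i else ∅)
        (if _ : j < k then app C z r hl hp j else ∅)) (by
          intro X hX
          exact (mem_filter.1 hX).2)
      exact ⟨h.1, h.2.1⟩

lemma arg_size (hl2 : 2 ≤ l) (k i : ℕ) :
    (∀ X ∈ arg C z r hl hp k i, X.card ≤ l) ∧ (arg C z r hl hp k i).card ≤ (p * l) ^ l := by
  unfold arg
  split_ifs
  · exact app_size C z r hl hp hl2 i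
  · simp

lemma raw_size (hl2 : 2 ≤ l) (k : ℕ) :
    (∀ X ∈ raw C z r hl hp k, X.card ≤ l) ∧
      (raw C z r hl hp k).card ≤ 2 * ((p * l) ^ l) ^ 2 := by
  have h1 : 1 ≤ (p * l) ^ l := Nat.one_le_pow _ _ (by positivity)
  have hle : (p * l) ^ l ≤ ((p * l) ^ l) ^ 2 := Nat.le_self_pow (by norm_num) _
  unfold raw
  cases hg : C.gate k with
  | input v => simp
  | const b => simp
  | not i => simp
  | or i j =>
    simp only
    constructor
    · intro X hX
      rcases mem_union.1 hX with h | h
      · exact (arg_size C z r hl hp hl2 k i).1 X h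
      · exact (arg_size C z r hl hp hl2 k j).1 X h
    · have h2 := (arg_size C z r hl hp hl2 k i).2
      have h3 := (arg_size C z r hl hp hl2 k j).2
      have h4 := Finset.card_union_le (arg C z r hl hp k i) (arg C z r hl hp k j)
      omega
  | and i j =>
    simp only
    constructor
    · intro X hX
      exact (mem_filter.1 hX).2
    · have h2 := (arg_size C z r hl hp hl2 k i).2
      have h3 := (arg_size C z r hl hp hl2 k j).2
      calc (joins l (arg C z r hl hp k i) (arg C z r hl hp k j)).card
          ≤ (arg C z r hl hp k i ×ˢ arg C z r hl hp k j).card :=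
            (Finset.card_filter_le _ _).trans Finset.card_image_le
        _ = (arg C z r hl hp k i).card * (arg C z r hl hp k j).card := card_product _ _
        _ ≤ (p * l) ^ l * (p * l) ^ l := Nat.mul_le_mul h2 h3
        _ ≤ 2 * ((p * l) ^ l) ^ 2 := by
          rw [← sq]
          omega

/-- the clique `K` is lost at the AND gate `k` -/
def Lost (k : ℕ) (K : Finset (Fin n)) : Prop :=
  ∃ i j, C.gate k = .and i j ∧ ∃ X ∈ arg C z r hl hp k i, ∃ Y ∈ arg C z r hl hp k j,
    X ∪ Y ⊆ K ∧ l < (X ∪ Y).card

/-- the colouring `χ` is an error of the gate `k` -/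
def Err (k : ℕ) (χ : Fin n → Fin c) : Prop :=
  (C.gate k).isAndOr = true ∧ AccN (app C z r hl hp k) χ ∧ ¬ AccN (raw C z r hl hp k) χ

lemma accP_cfam {b : Bool} {K : Finset (Fin n)} (h : b = true) : AccP (cfam n b) K := by
  subst h
  exact ⟨∅, by simp [cfam], empty_subset _⟩

lemma accN_cfam {b : Bool} {χ : Fin n → Fin c} (h : AccN (cfam n b) χ) : b = true := by
  obtain ⟨X, hX, _⟩ := h
  cases b with
  | false => simp [cfam] at hX
  | true => rfl

lemma pos_ok (hl2 : 2 ≤ l) (K : Finset (Fin n)) : ∀ k, C.pval z (inst r (posIn K)) k = true →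
    AccP (app C z r hl hp k) K ∨ ∃ i ≤ k, Lost C z r hl hp i K := by
  intro k
  induction k using Nat.strong_induction_on with
  | _ k ih =>
    intro hk
    have hsz := app_size C z r hl hp hl2
    have harg : ∀ i, (if _ : i < k then C.pval z (inst r (posIn K)) i else false) = true →
        AccP (if _ : i < k then app C z r hl hp i else ∅) K ∨
          ∃ j ≤ k, Lost C z r hl hp j K := by
      intro i hi
      split_ifs at hi ⊢ with h
      · rcases ih i h hi with h1 | ⟨j, hj, hj'⟩
        · exact Or.inl h1
        · exact Or.inr ⟨j, hj.trans h.le, hj'⟩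
    rw [Circuit.pval] at hk
    rw [app]
    cases hg : C.gate k with
    | input v =>
      rw [hg] at hk
      simp only at hk ⊢
      unfold inst at hk
      cases hv : r v with
      | inl b =>
        rw [hv] at hk
        exact Or.inl (accP_cfam hk)
      | inr e =>
        rw [hv] at hk
        simp only [posIn, Bool.and_eq_true, decide_eq_true_eq] at hk
        left
        refine ⟨{e.1.1, e.1.2}, by simp, ?_⟩
        intro w hw
        rw [mem_insert, mem_singleton] at hw
        rcases hw with rfl | rfl
        · exact hk.1
        · exact hk.2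
    | const b =>
      rw [hg] at hk
      exact Or.inl (accP_cfam hk)
    | not i =>
      rw [hg] at hk
      exact Or.inl (accP_cfam hk)
    | or i j =>
      rw [hg] at hk
      simp only [Bool.or_eq_true] at hk
      simp only
      have hs : ∀ X ∈ (if _ : i < k then app C z r hl hp i else ∅) ∪
          (if _ : j < k then app C z r hl hp j else ∅), X.card ≤ l := by
        intro X hX
        rcases mem_union.1 hX with h | h
        · split_ifs at h with h'
          · exact (hsz i).1 X h
          · simp at h
        · split_ifs at h with h'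
          · exact (hsz j).1 X h
          · simp at h
      have hpl := (pl_spec hl hp hs).2.2.1 K
      rcases hk with hk | hk
      · rcases harg i hk with ⟨X, hX, hXK⟩ | h
        · exact Or.inl (hpl ⟨X, mem_union_left _ hX, hXK⟩)
        · exact Or.inr h
      · rcases harg j hk with ⟨X, hX, hXK⟩ | h
        · exact Or.inl (hpl ⟨X, mem_union_right _ hX, hXK⟩)
        · exact Or.inr h
    | and i j =>
      rw [hg] at hk
      simp only [Bool.and_eq_true] at hk
      simp only
      have hs : ∀ X ∈ joins l (if _ : i < k then app C z r hl hp i else ∅)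
          (if _ : j < k then app C z r hl hp j else ∅), X.card ≤ l :=
        fun X hX => (mem_filter.1 hX).2
      have hpl := (pl_spec hl hp hs).2.2.1 K
      rcases harg i hk.1 with ⟨X, hX, hXK⟩ | h
      · rcases harg j hk.2 with ⟨Y, hY, hYK⟩ | h
        · by_cases hc : (X ∪ Y).card ≤ l
          · left
            apply hpl
            exact ⟨X ∪ Y, mem_filter.2 ⟨mem_image.2 ⟨(X, Y), mem_product.2 ⟨hX, hY⟩, rfl⟩, hc⟩,
              union_subset hXK hYK⟩
          · right
            refine ⟨k, le_rfl, i, j, hg, X, ?_, Y, ?_, union_subset hXK hYK, by omega⟩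
            · unfold arg
              split_ifs at hX ⊢ with h
              · exact hX
              · simp at hX
            · unfold arg
              split_ifs at hY ⊢ with h
              · exact hY
              · simp at hY
        · exact Or.inr h
      · exact Or.inr h

lemma neg_ok (χ : Fin n → Fin c) : ∀ k, AccN (app C z r hl hp k) χ →
    C.pval z (inst r (negIn χ)) k = true ∨ ∃ i ≤ k, Err C z r hl hp i χ := by
  intro k
  induction k using Nat.strong_induction_on with
  | _ k ih =>
    intro hk
    have harg : ∀ i, AccN (arg C z r hl hp k i) χ →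
        (if _ : i < k then C.pval z (inst r (negIn χ)) i else false) = true ∨
          ∃ j ≤ k, Err C z r hl hp j χ := by
      intro i hi
      unfold arg at hi
      split_ifs at hi ⊢ with h
      · rcases ih i h hi with h1 | ⟨j, hj, hj'⟩
        · exact Or.inl h1
        · exact Or.inr ⟨j, hj.trans h.le, hj'⟩
      · obtain ⟨X, hX, _⟩ := hi
        simp at hX
    by_cases hao : (C.gate k).isAndOr = true
    · by_cases hraw : AccN (raw C z r hl hp k) χ
      · unfold raw at hraw
        rw [Circuit.pval]
        cases hg : C.gate k with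
        | input v => rw [hg] at hao; exact absurd hao (by simp [Gate.isAndOr])
        | const b => rw [hg] at hao; exact absurd hao (by simp [Gate.isAndOr])
        | not i => rw [hg] at hao; exact absurd hao (by simp [Gate.isAndOr])
        | or i j =>
          rw [hg] at hraw
          obtain ⟨X, hX, hXχ⟩ := hraw
          simp only [Bool.or_eq_true]
          rcases mem_union.1 hX with h | h
          · rcases harg i ⟨X, h, hXχ⟩ with h1 | h1
            · exact Or.inl (Or.inl h1)
            · exact Or.inr h1
          · rcases harg j ⟨X, h, hXχ⟩ with h1 | h1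
            · exact Or.inl (Or.inr h1)
            · exact Or.inr h1
        | and i j =>
          rw [hg] at hraw
          obtain ⟨X, hX, hXχ⟩ := hraw
          simp only [Bool.and_eq_true]
          obtain ⟨⟨Y, Y'⟩, hq, rfl⟩ := mem_image.1 (mem_filter.1 hX).1
          rw [mem_product] at hq
          rcases harg i ⟨Y, hq.1, hXχ.mono (by simp)⟩ with h1 | h1
          · rcases harg j ⟨Y', hq.2, hXχ.mono (by simp)⟩ with h2 | h2
            · exact Or.inl ⟨h1, h2⟩
            · exact Or.inr h2
          · exact Or.inr h1
      · exact Or.inr ⟨k, le_rfl, hao, hk, hraw⟩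
    · rw [app] at hk
      rw [Circuit.pval]
      cases hg : C.gate k with
      | input v =>
        rw [hg] at hk
        simp only at hk ⊢
        unfold inst
        cases hv : r v with
        | inl b =>
          rw [hv] at hk
          exact Or.inl (accN_cfam hk)
        | inr e =>
          rw [hv] at hk
          left
          obtain ⟨X, hX, hXχ⟩ := hk
          rw [mem_singleton] at hX
          subst hX
          simp only [negIn, decide_eq_true_eq]
          intro h
          have := hXχ (by simp : e.1.1 ∈ (({e.1.1, e.1.2} : Finset (Fin n)) : Set (Fin n)))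
            (by simp : e.1.2 ∈ (({e.1.1, e.1.2} : Finset (Fin n)) : Set (Fin n))) h
          exact absurd this (ne_of_lt e.2)
      | const b =>
        rw [hg] at hk
        exact Or.inl (accN_cfam hk)
      | not i =>
        rw [hg] at hk
        exact Or.inl (accN_cfam hk)
      | or i j => rw [hg] at hao; exact absurd rfl hao
      | and i j => rw [hg] at hao; exact absurd rfl hao

open Classical in
lemma card_err (hl2 : 2 ≤ l) (k : ℕ) :
    ((univ : Finset (Fin n → Fin c)).filter fun χ => Err C z r hl hp k χ).card * 2 ^ p ≤
      2 * ((p * l) ^ l) ^ 2 * c ^ n := by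
  have h1 := raw_size C z r hl hp hl2 k
  have h2 := (pl_spec hl hp h1.1).2.2.2
  rw [Fintype.card_fin] at h2
  refine le_trans ?_ (h2.trans (Nat.mul_le_mul_right _ h1.2))
  apply Nat.mul_le_mul_right
  apply Finset.card_le_card
  intro χ hχ
  rw [mem_filter] at hχ ⊢
  obtain ⟨_, hao, hacc, hraw⟩ := hχ
  refine ⟨mem_univ _, ?_, hraw⟩
  have h3 : app C z r hl hp k = pl hl hp (raw C z r hl hp k) := by
    rw [app]
    unfold raw arg
    cases hg : C.gate k with
    | input v => rw [hg] at hao; exact absurd hao (by simp [Gate.isAndOr])
    | const b => rw [hg] at hao; exact absurd hao (by simp [Gate.isAndOr])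
    | not i => rw [hg] at hao; exact absurd hao (by simp [Gate.isAndOr])
    | or i j => rfl
    | and i j => rfl
  rw [← h3]
  exact hacc

open Classical in
/-- the number of `q`-sets containing a given set with at least `s` elements -/
lemma card_super {q s : ℕ} {Y : Finset (Fin n)} (hY : s ≤ Y.card) :
    ((powersetCard q (univ : Finset (Fin n))).filter fun K => Y ⊆ K).card ≤
      (n - s).choose (q - s) := by
  obtain ⟨Y', hY', hc⟩ := Finset.exists_subset_card_eq hY
  have h1 : ((powersetCard q (univ : Finset (Fin n))).filter fun K => Y ⊆ K).card ≤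
      (powersetCard (q - s) (univ \ Y')).card := by
    apply Finset.card_le_card_of_injOn (fun K => K \ Y')
    · intro K hK
      rw [mem_coe, mem_filter, mem_powersetCard] at hK
      rw [mem_coe, mem_powersetCard]
      refine ⟨Finset.sdiff_subset_sdiff (subset_univ _) (le_refl _), ?_⟩
      rw [Finset.card_sdiff_of_subset (hY'.trans hK.2), hK.1.2, hc]
    · intro K hK K' hK' h
      rw [mem_coe, mem_filter] at hK hK'
      have h2 : K \ Y' ∪ Y' = K' \ Y' ∪ Y' := by
        simp only at h
        rw [h]
      rwa [Finset.sdiff_union_of_subset (hY'.trans hK.2),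
        Finset.sdiff_union_of_subset (hY'.trans hK'.2)] at h2
  rw [card_powersetCard, Finset.card_sdiff_of_subset (subset_univ _), card_univ,
    Fintype.card_fin, hc] at h1
  exact h1

open Classical in
lemma card_lost (hl2 : 2 ≤ l) (q k : ℕ) :
    ((powersetCard q (univ : Finset (Fin n))).filter fun K => Lost C z r hl hp k K).card ≤
      ((p * l) ^ l) ^ 2 * (n - (l + 1)).choose (q - (l + 1)) := by
  by_cases hand : ∃ i j, C.gate k = .and i j
  · obtain ⟨i, j, hg⟩ := hand
    have h1 : ((powersetCard q (univ : Finset (Fin n))).filter fun K =>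
        Lost C z r hl hp k K) ⊆
        ((arg C z r hl hp k i ×ˢ arg C z r hl hp k j).filter fun t =>
          l < (t.1 ∪ t.2).card).biUnion fun t =>
            (powersetCard q (univ : Finset (Fin n))).filter fun K => t.1 ∪ t.2 ⊆ K := by
      intro K hK
      rw [mem_filter] at hK
      obtain ⟨hKq, i', j', hg', X, hX, Y, hY, hXY, hc⟩ := hK
      rw [hg] at hg'
      obtain ⟨rfl, rfl⟩ : i = i' ∧ j = j' := by
        injection hg' with h1 h2
        exact ⟨h1, h2⟩
      rw [mem_biUnion]
      exact ⟨(X, Y), mem_filter.2 ⟨mem_product.2 ⟨hX, hY⟩, hc⟩, mem_filter.2 ⟨hKq, hXY⟩⟩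
    calc _ ≤ _ := Finset.card_le_card h1
      _ ≤ _ := Finset.card_biUnion_le
      _ ≤ ∑ _t ∈ ((arg C z r hl hp k i ×ˢ arg C z r hl hp k j).filter fun t =>
          l < (t.1 ∪ t.2).card), (n - (l + 1)).choose (q - (l + 1)) := by
        apply Finset.sum_le_sum
        intro t ht
        exact card_super (mem_filter.1 ht).2
      _ = ((arg C z r hl hp k i ×ˢ arg C z r hl hp k j).filter fun t =>
          l < (t.1 ∪ t.2).card).card * (n - (l + 1)).choose (q - (l + 1)) := by
        rw [Finset.sum_const, smul_eq_mul]
      _ ≤ _ := by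
        apply Nat.mul_le_mul_right
        calc _ ≤ (arg C z r hl hp k i ×ˢ arg C z r hl hp k j).card :=
              Finset.card_filter_le _ _
          _ = (arg C z r hl hp k i).card * (arg C z r hl hp k j).card := card_product _ _
          _ ≤ (p * l) ^ l * (p * l) ^ l :=
            Nat.mul_le_mul (arg_size C z r hl hp hl2 k i).2 (arg_size C z r hl hp hl2 k j).2
          _ = ((p * l) ^ l) ^ 2 := (sq _).symm
  · have h1 : ((powersetCard q (univ : Finset (Fin n))).filter fun K =>
        Lost C z r hl hp k K) = ∅ := by
      rw [Finset.filter_eq_empty_iff]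
      rintro K _ ⟨i, j, hg, _⟩
      exact hand ⟨i, j, hg⟩
    rw [h1]
    simp

lemma Lost.and {k : ℕ} {K : Finset (Fin n)} (h : Lost C z r hl hp k K) :
    (C.gate k).isAndOr = true := by
  obtain ⟨i, j, hg, _⟩ := h
  rw [hg]
  rfl

end

open Classical in
/-- **The method of approximations.** If the critical gates accept all cliques on `q` vertices and
reject all complete `c`-partite graphs, the circuit has many AND and OR gates. -/
theorem approx {X : Type} {n c : ℕ} (C : Circuit X) (z : ℕ → Bool) (r : X → Bool ⊕ Pair n)
    {l p q : ℕ} (hl : l * (l - 1) ≤ c) (hl2 : 2 ≤ l) (hp : 2 ≤ p) (crit : ℕ → Prop)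
    (hcrit : ∀ k, crit k → k < C.size)
    (hpos : ∀ K : Finset (Fin n), K.card = q →
      ∃ k, crit k ∧ C.pval z (inst r (posIn K)) k = true)
    (hneg : ∀ (χ : Fin n → Fin c) k, crit k → C.pval z (inst r (negIn χ)) k = false) :
    2 ^ p ≤ 4 * ((p * l) ^ l) ^ 2 * C.andOrs ∨
      n.choose q ≤ C.andOrs * (((p * l) ^ l) ^ 2 * (n - (l + 1)).choose (q - (l + 1))) := by
  set G := (Finset.range C.size).filter fun k => (C.gate k).isAndOr = true with hG
  by_cases hne : ∃ k, crit k ∧ (app C z r hl hp k).Nonempty
  · left
    obtain ⟨k, hk, X', hX'⟩ := hne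
    have hc0 : 0 < c := by
      have : 2 * 1 ≤ l * (l - 1) := Nat.mul_le_mul hl2 (by omega)
      omega
    have h1 : 2 * ((univ : Finset (Fin n → Fin c)).filter fun χ =>
        ¬ Set.InjOn χ (X' : Set (Fin n))).card ≤ (univ : Finset (Fin n → Fin c)).card := by
      apply card_not_rainbow univ ((app_size C z r hl hp hl2 k).1 X' hX') hl (Z := ∅)
      · intro u _ _ χ _ a
        exact mem_univ _
      · intro χ _
        simp
    have h2 : (univ : Finset (Fin n → Fin c)).card ≤
        2 * ((univ : Finset (Fin n → Fin c)).filter fun χ =>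
          Set.InjOn χ (X' : Set (Fin n))).card := by
      have := Finset.card_filter_add_card_filter_not (s := (univ : Finset (Fin n → Fin c)))
        (fun χ => Set.InjOn χ (X' : Set (Fin n)))
      omega
    have h3 : ((univ : Finset (Fin n → Fin c)).filter fun χ =>
        Set.InjOn χ (X' : Set (Fin n))) ⊆
        G.biUnion fun i => (univ : Finset (Fin n → Fin c)).filter fun χ =>
          Err C z r hl hp i χ := by
      intro χ hχ
      rw [mem_filter] at hχ
      rcases neg_ok C z r hl hp χ k ⟨X', hX', hχ.2⟩ with h | ⟨i, hi, hi'⟩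
      · rw [hneg χ k hk] at h
        exact absurd h (by decide)
      · rw [mem_biUnion]
        refine ⟨i, ?_, mem_filter.2 ⟨mem_univ _, hi'⟩⟩
        rw [hG, mem_filter, mem_range]
        exact ⟨lt_of_le_of_lt hi (hcrit k hk), hi'.1⟩
    have h4 : (univ : Finset (Fin n → Fin c)).card = c ^ n := by
      rw [card_univ, Fintype.card_fun, Fintype.card_fin, Fintype.card_fin]
    have h5 : c ^ n * 2 ^ p ≤ (4 * ((p * l) ^ l) ^ 2 * C.andOrs) * c ^ n := by
      calc c ^ n * 2 ^ p ≤ (2 * ∑ i ∈ G, ((univ : Finset (Fin n → Fin c)).filter fun χ =>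
            Err C z r hl hp i χ).card) * 2 ^ p := by
            apply Nat.mul_le_mul_right
            rw [← h4]
            apply h2.trans
            apply Nat.mul_le_mul_left
            exact (Finset.card_le_card h3).trans Finset.card_biUnion_le
        _ = 2 * ∑ i ∈ G, ((univ : Finset (Fin n → Fin c)).filter fun χ =>
            Err C z r hl hp i χ).card * 2 ^ p := by
            rw [mul_assoc, Finset.sum_mul]
        _ ≤ 2 * ∑ _i ∈ G, 2 * ((p * l) ^ l) ^ 2 * c ^ n := by
            apply Nat.mul_le_mul_left
            exact Finset.sum_le_sum fun i _ => card_err C z r hl hp hl2 i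
        _ = (4 * ((p * l) ^ l) ^ 2 * C.andOrs) * c ^ n := by
            rw [Finset.sum_const, smul_eq_mul]
            have : G.card = C.andOrs := rfl
            rw [this]
            ring
    rw [mul_comm (c ^ n)] at h5
    exact Nat.le_of_mul_le_mul_right h5 (by positivity)
  · right
    push Not at hne
    have h1 : (powersetCard q (univ : Finset (Fin n))) ⊆
        G.biUnion fun i => (powersetCard q (univ : Finset (Fin n))).filter fun K =>
          Lost C z r hl hp i K := by
      intro K hK
      obtain ⟨k, hk, hkK⟩ := hpos K (mem_powersetCard.1 hK).2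
      rcases pos_ok C z r hl hp hl2 K k hkK with ⟨X', hX', _⟩ | ⟨i, hi, hi'⟩
      · rw [hne k hk] at hX'
        simp at hX'
      · rw [mem_biUnion]
        refine ⟨i, ?_, mem_filter.2 ⟨hK, hi'⟩⟩
        rw [hG, mem_filter, mem_range]
        exact ⟨lt_of_le_of_lt hi (hcrit k hk), Lost.and C z r hl hp hi'⟩
    calc n.choose q = (powersetCard q (univ : Finset (Fin n))).card := by
          rw [card_powersetCard, card_univ, Fintype.card_fin]
      _ ≤ _ := (Finset.card_le_card h1).trans Finset.card_biUnion_le
      _ ≤ ∑ _i ∈ G, ((p * l) ^ l) ^ 2 * (n - (l + 1)).choose (q - (l + 1)) :=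
          Finset.sum_le_sum fun i _ => card_lost C z r hl hp hl2 q i
      _ = C.andOrs * (((p * l) ^ l) ^ 2 * (n - (l + 1)).choose (q - (l + 1))) := by
          rw [Finset.sum_const, smul_eq_mul]
          rfl

end Pool.Agent.NEG72
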