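import Pool.Agent.NEG72.Red
import Pool.Agent.NEG72.Appr

/-!
# Cliques in several graphs: few negations do not help
-/

namespace Pool.Agent.NEG72

open Finset

/-- The graph `x` on the vertices `Fin n` has a clique with `q` vertices. -/
def HasClique {n : ℕ} (q : ℕ) (x : Pair n → Bool) : Prop :=
  ∃ K : Finset (Fin n), K.card = q ∧ ∀ e : Pair n, e.1.1 ∈ K → e.1.2 ∈ K → x e = true

/-- None of the `m` graphs `x (i, ·)` on the vertices `Fin n` has a clique with `q` vertices. -/
def NoClique (m n q : ℕ) (x : Fin m × Pair n → Bool) : Prop :=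
  ∀ i : Fin m, ¬ HasClique q fun e => x (i, e)

lemma hasClique_posIn {n : ℕ} (K : Finset (Fin n)) : HasClique K.card (posIn K) :=
  ⟨K, rfl, fun e h1 h2 => by simp [posIn, h1, h2]⟩

lemma not_hasClique_negIn {n c q : ℕ} (h : c < q) (χ : Fin n → Fin c) :
    ¬ HasClique q (negIn χ) := by
  rintro ⟨K, hK, hx⟩
  obtain ⟨a, ha, b, hb, hab, hχ⟩ := Finset.exists_ne_map_eq_of_card_lt_of_maps_to
    (s := K) (t := (univ : Finset (Fin c))) (f := χ) (by simpa [hK] using h) (fun _ _ => mem_univ _)
  rcases lt_or_gt_of_ne hab with h1 | h1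
  · have := hx ⟨(a, b), h1⟩ ha hb
    simp [negIn, hχ] at this
  · have := hx ⟨(b, a), h1⟩ hb ha
    simp [negIn, hχ] at this

lemma not_hasClique_zero {n q : ℕ} (h : 2 ≤ q) : ¬ HasClique q (fun _ : Pair n => false) := by
  rintro ⟨K, hK, hx⟩
  obtain ⟨a, ha, b, hb, hab⟩ := Finset.one_lt_card.1 (by omega : 1 < K.card)
  rcases lt_or_gt_of_ne hab with h1 | h1
  · exact absurd (hx ⟨(a, b), h1⟩ ha hb) (by simp)
  · exact absurd (hx ⟨(b, a), h1⟩ hb ha) (by simp)

/-- the bound for an OR of cliques -/
theorem comb_or {m n q l p : ℕ} (hq : 2 ≤ q) (hl : l * (l - 1) ≤ q - 1) (hl2 : 2 ≤ l) (hp : 2 ≤ p)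
    (C : Circuit (Fin m × Pair n)) (hC : C.Computes fun x => ∃ i, HasClique q fun e => x (i, e))
    (hr : 2 ^ C.nots ≤ m) :
    2 ^ p ≤ 4 * ((p * l) ^ l) ^ 2 * C.andOrs ∨
      n.choose q ≤ C.andOrs * (((p * l) ^ l) ^ 2 * (n - (l + 1)).choose (q - (l + 1))) := by
  obtain ⟨z, A, b, y, hb, h⟩ := reduction (HasClique q) (not_hasClique_zero hq) C hC hr
  set r : Fin m × Pair n → Bool ⊕ Pair n := fun v =>
    if v.1 = b then .inr v.2 else .inl (decide (v.1 ∈ A) && y v.1 v.2) with hr'
  have hinst : ∀ x : Pair n → Bool, blk (insert b A) (Function.update y b x) = inst r x := by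
    intro x
    funext v
    obtain ⟨i, e⟩ := v
    unfold blk inst
    by_cases hi : i = b
    · subst hi
      simp [hr']
    · simp [hr', hi, Function.update_of_ne hi]
  have hcrit : ∀ k, C.crit z k → k < C.size := by
    rintro k (rfl | ⟨i, hi, hg, _⟩)
    · exact C.out_lt
    · exact (C.earlier i hi k (by rw [hg]; simp [Gate.args])).trans hi
  apply approx C z r (c := q - 1) (q := q) hl hl2 hp (C.crit z) hcrit
  · intro K hK
    have h1 := (h (posIn K)).1 (by rw [← hK]; exact hasClique_posIn K)
    rw [hinst] at h1
    exact h1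
  · intro χ k hk
    by_contra hne
    rw [Bool.not_eq_false] at hne
    refine not_hasClique_negIn (by omega : q - 1 < q) χ ((h (negIn χ)).2 ⟨k, hk, ?_⟩)
    rw [hinst]
    exact hne

/-- the circuit with an additional NOT gate at the output -/
def Circuit.neg {X : Type} (C : Circuit X) : Circuit X where
  size := C.size + 1
  gate := fun k => if k < C.size then C.gate k else .not C.out
  earlier := by
    intro k hk i hi
    split_ifs at hi with h
    · exact C.earlier k h i hi
    · have := C.out_lt
      simp only [Gate.args, List.mem_singleton] at hi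
      omega
  out := C.size
  out_lt := Nat.lt_succ_self _

lemma Circuit.neg_val_lt {X : Type} (C : Circuit X) (x : X → Bool) :
    ∀ k < C.size, C.neg.val x k = C.val x k := by
  intro k
  induction k using Nat.strong_induction_on with
  | _ k ih =>
    intro hk
    have key : ∀ i, (if _ : i < k then C.neg.val x i else false) =
        (if _ : i < k then C.val x i else false) := by
      intro i
      split_ifs with hi
      · exact ih i hi (hi.trans hk)
      · rfl
    have hg : C.neg.gate k = C.gate k := by
      show (if k < C.size then C.gate k else .not C.out) = _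
      rw [if_pos hk]
    rw [Circuit.val, Circuit.val, hg]
    cases C.gate k with
    | input v => rfl
    | const b => rfl
    | not i => simp only [key]
    | and i j => simp only [key]
    | or i j => simp only [key]

lemma Circuit.neg_val {X : Type} (C : Circuit X) (x : X → Bool) :
    C.neg.val x C.neg.out = !(C.val x C.out) := by
  have hg : C.neg.gate C.size = .not C.out := by
    show (if C.size < C.size then C.gate C.size else .not C.out) = _
    rw [if_neg (lt_irrefl _)]
  have ho : C.neg.out = C.size := rfl
  rw [ho, Circuit.val, hg]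
  simp only [C.out_lt, dif_pos]
  rw [Circuit.neg_val_lt C x _ C.out_lt]

lemma Circuit.neg_card {X : Type} (C : Circuit X) (P : Gate X → Bool) :
    ((Finset.range C.neg.size).filter fun k => P (C.neg.gate k) = true).card =
      ((Finset.range C.size).filter fun k => P (C.gate k) = true).card +
        if P (.not C.out) = true then 1 else 0 := by
  have hs : C.neg.size = C.size + 1 := rfl
  have hg : C.neg.gate C.size = .not C.out := by
    show (if C.size < C.size then C.gate C.size else .not C.out) = _
    rw [if_neg (lt_irrefl _)]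
  have h1 : ((Finset.range C.size).filter fun k => P (C.neg.gate k) = true) =
      (Finset.range C.size).filter fun k => P (C.gate k) = true := by
    apply Finset.filter_congr
    intro k hk
    have : C.neg.gate k = C.gate k := by
      show (if k < C.size then C.gate k else .not C.out) = _
      rw [if_pos (mem_range.1 hk)]
    rw [this]
  rw [hs, Finset.range_add_one, Finset.filter_insert, hg, h1]
  split_ifs with h
  · rw [Finset.card_insert_of_notMem (by simp)]
  · rfl

lemma Circuit.neg_nots {X : Type} (C : Circuit X) : C.neg.nots = C.nots + 1 :=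
  Circuit.neg_card C Gate.isNot

lemma Circuit.neg_andOrs {X : Type} (C : Circuit X) : C.neg.andOrs = C.andOrs :=
  Circuit.neg_card C Gate.isAndOr

/-- the bound for the complement -/
theorem comb {m n q l p : ℕ} (hq : 2 ≤ q) (hl : l * (l - 1) ≤ q - 1) (hl2 : 2 ≤ l) (hp : 2 ≤ p)
    (C : Circuit (Fin m × Pair n)) (hC : C.Computes (NoClique m n q))
    (hr : 2 ^ (C.nots + 1) ≤ m) :
    2 ^ p ≤ 4 * ((p * l) ^ l) ^ 2 * C.andOrs ∨
      n.choose q ≤ C.andOrs * (((p * l) ^ l) ^ 2 * (n - (l + 1)).choose (q - (l + 1))) := by
  rw [← Circuit.neg_andOrs C]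
  rw [← Circuit.neg_nots C] at hr
  apply comb_or hq hl hl2 hp C.neg ?_ hr
  intro x
  rw [Circuit.neg_val]
  have h := hC x
  unfold NoClique at h
  constructor
  · intro h1
    by_contra h2
    push Not at h2
    rw [h.2 h2] at h1
    exact absurd h1 (by decide)
  · rintro ⟨i, hi⟩
    cases hv : C.val x C.out with
    | false => rfl
    | true => exact absurd hi (h.1 hv i)

end Pool.Agent.NEG72
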