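import Mathlib

/-!
# Boolean circuits and negations

Boolean circuits with AND, OR and NOT gates. `pval z` is the evaluation in which the output of the
NOT gate number `k` is replaced by the constant `z k`.
-/

namespace Pool.Agent.NEG72

/-- The gates of a Boolean circuit whose input variables are the elements of `X`; the gates of the
circuit are numbered and the natural numbers stand for the numbers of other gates. -/
inductive Gate (X : Type) where
  | input (v : X)
  | const (b : Bool)
  | and (i j : ℕ)
  | or (i j : ℕ)
  | not (i : ℕ)

/-- The numbers of the gates which a gate reads. -/
def Gate.args {X : Type} : Gate X → List ℕ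
  | .input _ => []
  | .const _ => []
  | .and i j => [i, j]
  | .or i j => [i, j]
  | .not i => [i]

/-- Is it a NOT gate? -/
def Gate.isNot {X : Type} : Gate X → Bool
  | .not _ => true
  | _ => false

/-- Is it an AND gate or an OR gate? -/
def Gate.isAndOr {X : Type} : Gate X → Bool
  | .and _ _ => true
  | .or _ _ => true
  | _ => false

/-- A Boolean circuit with the input variables `X`: the gates `0, 1, ..., size - 1`, each of them
reads only gates with smaller numbers, and an output gate. -/
structure Circuit (X : Type) where
  size : ℕ
  gate : ℕ → Gate X
  earlier : ∀ k < size, ∀ i ∈ (gate k).args, i < k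
  out : ℕ
  out_lt : out < size

/-- The number of NOT gates. -/
def Circuit.nots {X : Type} (C : Circuit X) : ℕ :=
  ((Finset.range C.size).filter fun k => (C.gate k).isNot = true).card

/-- The number of AND gates and OR gates. -/
def Circuit.andOrs {X : Type} (C : Circuit X) : ℕ :=
  ((Finset.range C.size).filter fun k => (C.gate k).isAndOr = true).card

variable {X : Type}

/-- The value of the gate number `k` on the input `x`. -/
def Circuit.val (C : Circuit X) (x : X → Bool) (k : ℕ) : Bool :=
  match C.gate k with
  | .input v => x v
  | .const b => b
  | .and i j => (if _ : i < k then C.val x i else false) && (if _ : j < k then C.val x j else false)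
  | .or i j => (if _ : i < k then C.val x i else false) || (if _ : j < k then C.val x j else false)
  | .not i => !(if _ : i < k then C.val x i else false)
termination_by k

/-- The circuit computes the Boolean function `f`. -/
def Circuit.Computes (C : Circuit X) (f : (X → Bool) → Prop) : Prop :=
  ∀ x, C.val x C.out = true ↔ f x

/-- The value of the gate number `k` on the input `x` if the value of every NOT gate number `i` is
replaced by `z i`. -/
def Circuit.pval (C : Circuit X) (z : ℕ → Bool) (x : X → Bool) (k : ℕ) : Bool :=
  match C.gate k with
  | .input v => x v
  | .const b => b
  | .and i j => (if _ : i < k then C.pval z x i else false) &&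
      (if _ : j < k then C.pval z x j else false)
  | .or i j => (if _ : i < k then C.pval z x i else false) ||
      (if _ : j < k then C.pval z x j else false)
  | .not _ => z k
termination_by k

lemma Circuit.pval_mono (C : Circuit X) (z : ℕ → Bool) {x x' : X → Bool}
    (h : ∀ v, x v = true → x' v = true) :
    ∀ k, C.pval z x k = true → C.pval z x' k = true := by
  intro k
  induction k using Nat.strong_induction_on with
  | _ k ih =>
    intro hk
    rw [Circuit.pval] at hk ⊢
    cases hg : C.gate k with
    | input v => rw [hg] at hk; exact h v hk
    | const b => rw [hg] at hk; exact hk
    | not i => rw [hg] at hk; exact hk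
    | and i j =>
      rw [hg] at hk
      simp only [Bool.and_eq_true] at hk ⊢
      obtain ⟨h1, h2⟩ := hk
      constructor
      · split_ifs at h1 ⊢ with hi
        · exact ih i hi h1
      · split_ifs at h2 ⊢ with hi
        · exact ih j hi h2
    | or i j =>
      rw [hg] at hk
      simp only [Bool.or_eq_true] at hk ⊢
      rcases hk with h1 | h1
      · left
        split_ifs at h1 ⊢ with hi
        · exact ih i hi h1
      · right
        split_ifs at h1 ⊢ with hi
        · exact ih j hi h1

lemma Circuit.pval_congr (C : Circuit X) {z z' : ℕ → Bool} (x : X → Bool) :
    ∀ k, (∀ i ≤ k, z i = z' i) → C.pval z x k = C.pval z' x k := by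
  intro k
  induction k using Nat.strong_induction_on with
  | _ k ih =>
    intro hk
    have key : ∀ i, (if _ : i < k then C.pval z x i else false) =
        (if _ : i < k then C.pval z' x i else false) := by
      intro i
      split_ifs with hi
      · exact ih i hi fun j hj => hk j (hj.trans hi.le)
      · rfl
    rw [Circuit.pval, Circuit.pval]
    cases hg : C.gate k with
    | input v => rfl
    | const b => rfl
    | not i => exact hk k le_rfl
    | and i j => simp only [key]
    | or i j => simp only [key]

/-- If all guesses are right, the evaluation is right. -/
lemma Circuit.pval_eq_val (C : Circuit X) {z : ℕ → Bool} {x : X → Bool}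
    (h : ∀ k < C.size, ∀ a, C.gate k = .not a → z k = !(C.pval z x a)) :
    ∀ k < C.size, C.pval z x k = C.val x k := by
  intro k
  induction k using Nat.strong_induction_on with
  | _ k ih =>
    intro hk
    have key : ∀ i, (if _ : i < k then C.pval z x i else false) =
        (if _ : i < k then C.val x i else false) := by
      intro i
      split_ifs with hi
      · exact ih i hi (hi.trans hk)
      · rfl
    rw [Circuit.pval, Circuit.val]
    cases hg : C.gate k with
    | input v => rfl
    | const b => rfl
    | not i =>
      have hi : i < k := C.earlier k hk i (by rw [hg]; simp [Gate.args])
      show z k = !_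
      rw [h k hk i hg, ih i hi (hi.trans hk), dif_pos hi]
    | and i j => simp only [key]
    | or i j => simp only [key]

end Pool.Agent.NEG72
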