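import Pool.Agent.NegLim.Final
import Pool.Agent.NEG72.WinU

/-!
# The trade-off for nondeterministic circuits with few negations
-/

namespace Pool.Agent.NEG72

open Pool.Agent.NegLim

theorem uniform (v n k N s t : ℕ) (C : NCirc (Edge v) s t) (hn : 2 ^ 200 ≤ n)
    (hk : k = Nat.sqrt (Nat.sqrt n)) (hN : N = v * (v - 1) / 2) (hfree : C.NotsFree)
    (hacc : ∀ x, C.Acc x ↔ nis v k x = true)
    (hsr : ((s + C.nots : ℕ) : ℝ) ≤
      Real.logb 2 N - 5 * (√(Real.logb 2 N) + Real.logb 2 n)) :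
    (2 : ℝ) ^ ((n : ℝ) ^ (1 / 8 : ℝ)) ≤ ((2 ^ (s + t) * (C.gates.length + 2) : ℕ) : ℝ) := by
  have hn0 : 0 < n := lt_of_lt_of_le (by positivity) hn
  have hnr : (1 : ℝ) ≤ n := by exact_mod_cast hn0
  have hn200 : (2 : ℝ) ^ 200 ≤ n := by
    have : ((2 ^ 200 : ℕ) : ℝ) ≤ n := by exact_mod_cast hn
    refine le_trans (le_of_eq ?_) this
    norm_num
  have hln : 200 ≤ Real.logb 2 n := by
    rw [Real.le_logb_iff_rpow_le (by norm_num) (by linarith)]
    refine le_trans (le_of_eq ?_) hn200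
    norm_num
  have hlN : 5 * Real.logb 2 n ≤ Real.logb 2 N := by
    have h1 : (0 : ℝ) ≤ ((s + C.nots : ℕ) : ℝ) := by positivity
    have h2 : 0 ≤ √(Real.logb 2 N) := Real.sqrt_nonneg _
    linarith
  have hN0 : (0 : ℝ) < N := by
    rcases Nat.eq_zero_or_pos N with h | h
    · rw [h] at hlN
      simp at hlN
      linarith
    · exact_mod_cast h
  have hNn : (n : ℝ) ^ 5 ≤ N := by
    have h1 : Real.logb 2 ((n : ℝ) ^ 5) ≤ Real.logb 2 N := by
      rw [Real.logb_pow]
      push_cast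
      exact hlN
    exact (Real.logb_le_logb (by norm_num) (by positivity) hN0).1 h1
  have hNv : N ≤ v * v := by
    rw [hN]
    exact (Nat.div_le_self _ _).trans (Nat.mul_le_mul_left _ (Nat.sub_le _ _))
  have hnv : n ^ 2 ≤ v := by
    have h1 : n ^ 5 ≤ N := by exact_mod_cast hNn
    have h2 : (n ^ 2) ^ 2 ≤ v ^ 2 := by
      calc (n ^ 2) ^ 2 = n ^ 4 := by ring
        _ ≤ n ^ 5 := Nat.pow_le_pow_right hn0 (by norm_num)
        _ ≤ N := h1
        _ ≤ v * v := hNv
        _ = v ^ 2 := (sq v).symm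
    exact (Nat.pow_le_pow_iff_left (by norm_num)).1 h2
  have hv4 : 4 ≤ v := by
    refine le_trans ?_ hnv
    have : 2 ≤ n := le_trans (by norm_num) hn
    calc 4 = 2 ^ 2 := rfl
      _ ≤ n ^ 2 := Nat.pow_le_pow_left this 2
  have hvN : v ≤ N := by
    rw [hN, Nat.le_div_iff_mul_le (by norm_num)]
    apply Nat.mul_le_mul_left
    omega
  obtain ⟨m, B, hm, hdisj, hsplit, hbound⟩ := windows_explicit hn hk hnv
  have hv0 : (0 : ℝ) < v := by exact_mod_cast (by omega : 0 < v)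
  have hv1 : (1 : ℝ) ≤ v := by exact_mod_cast (by omega : 1 ≤ v)
  have hm0 : (0 : ℝ) < m := by
    rcases Nat.eq_zero_or_pos m with h | h
    · rw [h] at hm
      simp at hm
      have : (0 : ℝ) < (v : ℝ) ^ 2 := by positivity
      nlinarith
    · exact_mod_cast h
  set a := √(Real.logb 2 N) with ha
  set c := √(Real.log (v : ℝ)) with hc
  have hl2 : (0.6931 : ℝ) ≤ Real.log 2 := by
    have := Real.log_two_gt_d9
    linarith
  have hl2' : 0 < Real.log 2 := by linarith
  have ha0 : 0 ≤ a := Real.sqrt_nonneg _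
  have hc0 : 0 ≤ c := Real.sqrt_nonneg _
  have ha2 : a ^ 2 = Real.logb 2 N := Real.sq_sqrt (by linarith)
  have hc2 : c ^ 2 = Real.log v := Real.sq_sqrt (Real.log_nonneg hv1)
  have hca : c ^ 2 ≤ Real.log 2 * a ^ 2 := by
    rw [ha2, hc2, Real.logb, mul_div_cancel₀ _ hl2'.ne']
    exact Real.log_le_log hv0 (by exact_mod_cast hvN)
  have h4c : 4 * c ≤ 5 * Real.log 2 * a := by
    have h1 : (4 * c) ^ 2 ≤ (5 * Real.log 2 * a) ^ 2 := by
      have h2 : 0 ≤ Real.log 2 * a ^ 2 := by positivity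
      have h3 : 16 * (Real.log 2 * a ^ 2) ≤ (25 * Real.log 2) * (Real.log 2 * a ^ 2) :=
        mul_le_mul_of_nonneg_right (by linarith) h2
      calc (4 * c) ^ 2 = 16 * c ^ 2 := by ring
        _ ≤ 16 * (Real.log 2 * a ^ 2) := by linarith
        _ ≤ (25 * Real.log 2) * (Real.log 2 * a ^ 2) := h3
        _ = (5 * Real.log 2 * a) ^ 2 := by ring
    exact (pow_le_pow_iff_left₀ (by positivity) (by positivity) (by norm_num)).1 h1
  have hlm : Real.logb 2 N ≤ 4 * Real.logb 2 n + 4 * c / Real.log 2 + Real.logb 2 m := by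
    have h1 : (N : ℝ) ≤ (n : ℝ) ^ 4 * Real.exp (4 * c) * m := by
      refine le_trans ?_ hm
      have : (N : ℝ) ≤ ((v * v : ℕ) : ℝ) := by exact_mod_cast hNv
      refine this.trans (le_of_eq ?_)
      push_cast
      ring
    calc Real.logb 2 N ≤ Real.logb 2 ((n : ℝ) ^ 4 * Real.exp (4 * c) * m) :=
          Real.logb_le_logb_of_le (by norm_num) hN0 h1
      _ = _ := by
        rw [Real.logb_mul (by positivity) hm0.ne', Real.logb_mul (by positivity) (by positivity),
          Real.logb_pow]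
        congr 2
        rw [Real.logb, Real.log_exp]
  have h4c' : 4 * c / Real.log 2 ≤ 5 * a := by
    rw [div_le_iff₀ hl2']
    linarith
  have hfin : ((s + C.nots : ℕ) : ℝ) ≤ Real.logb 2 m := by linarith
  have hlt : 2 ^ s * (2 ^ C.nots - 1) < m := by
    have h3 : (2 : ℝ) ^ (((s + C.nots : ℕ) : ℝ)) ≤ m := by
      rw [← Real.le_logb_iff_rpow_le (by norm_num) hm0]
      exact hfin
    have h4 : 2 ^ (s + C.nots) ≤ m := by
      rw [Real.rpow_natCast] at h3
      exact_mod_cast h3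
    have h5 : 0 < 2 ^ s := by positivity
    have h6 : 0 < 2 ^ C.nots := by positivity
    calc 2 ^ s * (2 ^ C.nots - 1) < 2 ^ s * 2 ^ C.nots :=
          Nat.mul_lt_mul_of_pos_left (by omega) h5
      _ = 2 ^ (s + C.nots) := (pow_add _ _ _).symm
      _ ≤ m := h4
  have hk2 : 2 ≤ k := by
    rw [hk, Nat.le_sqrt, Nat.le_sqrt]
    exact le_trans (by norm_num) hn
  obtain ⟨i, hi⟩ := exists_window hk2 B hdisj hsplit C hacc hfree hlt
  exact hbound i _ hi

end Pool.Agent.NEG72
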