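import Pool.Agent.NEG72.Win
import Pool.Agent.NEG72.Comb

/-!
# The monotone bound for cliques and for independent sets
-/

namespace Pool.Agent.NEG72

open Finset Pool.Agent.NegLim

open Classical in
/-- the method of approximations for the clique function -/
theorem mono_clq_raw {n q l p T : ℕ} (hq : 2 ≤ q) (hl : l * (l - 1) ≤ q - 1) (hl2 : 2 ≤ l)
    (hp : 2 ≤ p) (hT : MonSize (clq n q) T) :
    2 ^ p ≤ 4 * ((p * l) ^ l) ^ 2 * T ∨
      n.choose q ≤ T * (((p * l) ^ l) ^ 2 * (n - (l + 1)).choose (q - (l + 1))) := by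
  have h := mon_bound (V := Fin n) (E := Edge n)
    (P := {K : Finset (Fin n) // K ∈ powersetCard q (univ : Finset (Fin n))})
    (pos := fun K => posIn K.1) (K := fun K => K.1) (neg := fun χ : Fin n → Fin (q - 1) => negIn χ)
    (R := (n - (l + 1)).choose (q - (l + 1))) hl hl2 hp ?_ ?_ hT ?_ ?_
  · rwa [Fintype.card_coe, card_powersetCard, card_univ, Fintype.card_fin] at h
  · intro e
    refine ⟨{{e.1.1, e.1.2}}, ?_, by simp, ?_, ?_⟩
    · intro X hX
      rw [mem_singleton] at hX
      rw [hX]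
      exact Finset.card_le_two.trans hl2
    · intro K hK
      simp only [posIn, Bool.and_eq_true, decide_eq_true_eq] at hK
      refine ⟨{e.1.1, e.1.2}, by simp, ?_⟩
      intro a ha
      rw [mem_insert, mem_singleton] at ha
      rcases ha with rfl | rfl
      · exact hK.1
      · exact hK.2
    · rintro χ ⟨X, hX, hXχ⟩
      rw [mem_singleton] at hX
      subst hX
      simp only [negIn, decide_eq_true_eq]
      intro h
      have := hXχ (by simp : e.1.1 ∈ (({e.1.1, e.1.2} : Finset (Fin n)) : Set (Fin n)))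
        (by simp : e.1.2 ∈ (({e.1.1, e.1.2} : Finset (Fin n)) : Set (Fin n))) h
      exact absurd this (ne_of_lt e.2)
  · intro Y hY
    refine le_trans ?_ (card_super (n := n) (q := q) (s := l + 1) (Y := Y) hY)
    apply Finset.card_le_card_of_injOn (fun K => K.1)
    · intro K hK
      rw [mem_coe, mem_filter] at hK
      rw [mem_coe, mem_filter]
      exact ⟨K.2, hK.2⟩
    · intro K _ K' _ h
      exact Subtype.ext h
  · intro K
    rw [clq_iff]
    refine ⟨K.1, (mem_powersetCard.1 K.2).2, fun e h1 h2 => by simp [posIn, h1, h2]⟩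
  · intro χ
    rw [← Bool.not_eq_true, clq_iff]
    exact not_hasClique_negIn (by omega) χ

/-- **Cliques.** -/
theorem mono_clq {n q T : ℕ} (hn : 2 ^ 200 ≤ n) (hq : 5 ≤ q) (hqn : q ^ 4 ≤ n)
    (h : MonSize (clq n q) T) : (n : ℝ) ^ (√q / 8) ≤ T :=
  numerics hn hq hqn fun _ _ h1 h2 h3 => mono_clq_raw (by omega) h1 h2 h3 h

/-- **Independent sets.** -/
theorem mono_nis {n q T : ℕ} (hn : 2 ^ 200 ≤ n) (hq : 5 ≤ q) (hqn : q ^ 4 ≤ n)
    (h : MonSize (nis n q) T) : (n : ℝ) ^ (√q / 8) ≤ T := by
  apply mono_clq hn hq hqn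
  have h1 := monSize_dual h
  have h2 : NEG72.dual (nis n q) = clq n q := by
    funext x
    unfold NEG72.dual
    rw [← clq_not]
    simp
  rwa [h2] at h1

end Pool.Agent.NEG72
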