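import Mathlib

/-!
# Numerics for the clique bound
-/

namespace Pool.Agent.NEG72

lemma choose_ratio {n q : ℕ} (hq : q ≤ n) :
    ∀ s ≤ q, n ^ s * (n - s).choose (q - s) ≤ q ^ s * n.choose q := by
  intro s
  induction s with
  | zero => intro _; simp
  | succ s ih =>
    intro hs
    have key : n * (n - (s + 1)).choose (q - (s + 1)) ≤ q * (n - s).choose (q - s) := by
      have h1 : (n - s) * (n - (s + 1)).choose (q - (s + 1)) = (n - s).choose (q - s) * (q - s) := by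
        have := Nat.add_one_mul_choose_eq (n - (s + 1)) (q - (s + 1))
        have e1 : n - (s + 1) + 1 = n - s := by omega
        have e2 : q - (s + 1) + 1 = q - s := by omega
        rwa [e1, e2] at this
      have h2 : n * (q - s) ≤ q * (n - s) := by
        rw [Nat.mul_sub, Nat.mul_sub, Nat.mul_comm q n]
        have : q * s ≤ n * s := Nat.mul_le_mul_right s hq
        omega
      have h3 : 0 < n - s := by omega
      apply Nat.le_of_mul_le_mul_left _ h3
      calc (n - s) * (n * (n - (s + 1)).choose (q - (s + 1)))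
          = n * ((n - s) * (n - (s + 1)).choose (q - (s + 1))) := by ring
        _ = (n * (q - s)) * (n - s).choose (q - s) := by rw [h1]; ring
        _ ≤ (q * (n - s)) * (n - s).choose (q - s) := Nat.mul_le_mul_right _ h2
        _ = (n - s) * (q * (n - s).choose (q - s)) := by ring
    calc n ^ (s + 1) * (n - (s + 1)).choose (q - (s + 1))
        = n ^ s * (n * (n - (s + 1)).choose (q - (s + 1))) := by ring
      _ ≤ n ^ s * (q * (n - s).choose (q - s)) := Nat.mul_le_mul_left _ key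
      _ = q * (n ^ s * (n - s).choose (q - s)) := by ring
      _ ≤ q * (q ^ s * n.choose q) := Nat.mul_le_mul_left _ (ih (by omega))
      _ = q ^ (s + 1) * n.choose q := by ring

lemma log_bound : ∀ k, 200 ≤ k → (2 * (k + 1)) ^ 16 ≤ 2 ^ k := by
  intro k hk
  induction k, hk using Nat.le_induction with
  | base => norm_num
  | succ k hk ih =>
    have h1 : 201 * (k + 1 + 1) ≤ 202 * (k + 1) := by omega
    have h2 : (201 * (k + 1 + 1)) ^ 16 ≤ (202 * (k + 1)) ^ 16 := Nat.pow_le_pow_left h1 16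
    have h3 : (202 : ℕ) ^ 16 ≤ 2 * 201 ^ 16 := by norm_num
    have h4 : (201 : ℕ) ^ 16 * (2 * (k + 1 + 1)) ^ 16 ≤ 201 ^ 16 * (2 * (2 * (k + 1)) ^ 16) := by
      calc (201 : ℕ) ^ 16 * (2 * (k + 1 + 1)) ^ 16
          = 2 ^ 16 * (201 * (k + 1 + 1)) ^ 16 := by rw [mul_pow, mul_pow]; ring
        _ ≤ 2 ^ 16 * (202 * (k + 1)) ^ 16 := Nat.mul_le_mul_left _ h2
        _ = 202 ^ 16 * (2 * (k + 1)) ^ 16 := by rw [mul_pow, mul_pow]; ring
        _ ≤ (2 * 201 ^ 16) * (2 * (k + 1)) ^ 16 := Nat.mul_le_mul_right _ h3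
        _ = 201 ^ 16 * (2 * (2 * (k + 1)) ^ 16) := by ring
    have h5 := Nat.le_of_mul_le_mul_left h4 (by positivity)
    calc (2 * (k + 1 + 1)) ^ 16 ≤ 2 * (2 * (k + 1)) ^ 16 := h5
      _ ≤ 2 * 2 ^ k := Nat.mul_le_mul_left _ ih
      _ = 2 ^ (k + 1) := by ring

theorem numerics {n q T : ℕ} (hn : 2 ^ 200 ≤ n) (hq : 5 ≤ q) (hqn : q ^ 4 ≤ n)
    (h : ∀ l p, l * (l - 1) ≤ q - 1 → 2 ≤ l → 2 ≤ p →
      2 ^ p ≤ 4 * ((p * l) ^ l) ^ 2 * T ∨
        n.choose q ≤ T * (((p * l) ^ l) ^ 2 * (n - (l + 1)).choose (q - (l + 1)))) :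
    (n : ℝ) ^ (√q / 8) ≤ T := by
  set l := Nat.sqrt (q - 1) with hl
  have hll : l * l ≤ q - 1 := Nat.sqrt_le _
  have hl2 : 2 ≤ l := Nat.le_sqrt.2 (by omega)
  have hlq : q - 1 < (l + 1) * (l + 1) := Nat.lt_succ_sqrt _
  have hlq' : q ≤ (l + 1) * (l + 1) := by omega
  set L := Nat.log 2 n + 1 with hL
  have hnL : n < 2 ^ L := Nat.lt_pow_succ_log_self (by norm_num) n
  have hn0 : n ≠ 0 := by positivity
  have hLn : 2 ^ (L - 1) ≤ n := by
    rw [hL, Nat.add_sub_cancel]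
    exact Nat.pow_log_le_self 2 hn0
  have hL200 : 200 ≤ L - 1 := by
    rw [hL, Nat.add_sub_cancel]
    exact (Nat.le_log_iff_pow_le (by norm_num) hn0).2 hn
  have hL16 : (2 * L) ^ 16 ≤ n := by
    have := log_bound (L - 1) hL200
    have e : L - 1 + 1 = L := by omega
    rw [e] at this
    exact this.trans hLn
  have hqle : q ≤ n := (Nat.le_self_pow (by norm_num) q).trans hqn
  have hn1 : (1 : ℝ) ≤ n := by exact_mod_cast Nat.one_le_iff_ne_zero.2 hn0
  set t : ℝ := (n : ℝ) ^ (1 / 8 : ℝ) with ht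
  have ht0 : 0 < t := by positivity
  have ht8 : t ^ 8 = n := by
    rw [ht, ← Real.rpow_natCast, ← Real.rpow_mul (by positivity)]
    norm_num
  have htL : ((2 * L : ℕ) : ℝ) ^ 2 ≤ t := by
    have : (((2 * L : ℕ) : ℝ) ^ 2) ^ 8 ≤ t ^ 8 := by
      rw [ht8, ← pow_mul]
      exact_mod_cast hL16
    exact (pow_le_pow_iff_left₀ (by positivity) ht0.le (by norm_num)).1 this
  have htq : (q : ℝ) ≤ t ^ 2 := by
    have : (q : ℝ) ^ 4 ≤ (t ^ 2) ^ 4 := by
      rw [← pow_mul, ht8]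
      exact_mod_cast hqn
    exact (pow_le_pow_iff_left₀ (by positivity) (by positivity) (by norm_num)).1 this
  have ht4 : 4 ≤ t := by
    have : (4 : ℝ) ^ 8 ≤ t ^ 8 := by
      rw [ht8]
      have : (4 : ℕ) ^ 8 ≤ n := le_trans (by norm_num) hn
      exact_mod_cast this
    exact (pow_le_pow_iff_left₀ (by positivity) (by positivity) (by norm_num)).1 this
  have ht1 : 1 ≤ t := by linarith
  have hlt : ((l : ℕ) : ℝ) ^ 2 ≤ t ^ 2 := by
    refine le_trans ?_ htq
    have : l ^ 2 ≤ q := by rw [sq]; omega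
    exact_mod_cast this
  set p := 2 * l * L with hp
  have hp2 : 2 ≤ p := by
    rw [hp]
    calc 2 = 2 * 1 * 1 := rfl
      _ ≤ 2 * l * L := Nat.mul_le_mul (Nat.mul_le_mul_left 2 (by omega)) (by omega)
  have hP : (((((p * l) ^ l) ^ 2 : ℕ)) : ℝ) ≤ t ^ (5 * l) := by
    have h1 : ((p * l : ℕ) : ℝ) ^ 2 ≤ t ^ 5 := by
      calc ((p * l : ℕ) : ℝ) ^ 2 = ((2 * L : ℕ) : ℝ) ^ 2 * ((l : ℝ) ^ 2) ^ 2 := by
            rw [hp]; push_cast; ring
        _ ≤ t * (t ^ 2) ^ 2 := by gcongr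
        _ = t ^ 5 := by ring
    calc (((((p * l) ^ l) ^ 2 : ℕ)) : ℝ) = (((p * l : ℕ) : ℝ) ^ 2) ^ l := by
          push_cast
          rw [← pow_mul, ← pow_mul, mul_comm l 2]
      _ ≤ (t ^ 5) ^ l := by gcongr
      _ = t ^ (5 * l) := by rw [← pow_mul]
  have hmain : t ^ (l + 1) ≤ T := by
    rcases h l p ((Nat.mul_le_mul_left l (by omega)).trans hll) hl2 hp2 with hA | hB
    · have h1 : t ^ (16 * l) ≤ 4 * t ^ (5 * l) * T := by
        calc t ^ (16 * l) = (n : ℝ) ^ (2 * l) := by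
              rw [← ht8, ← pow_mul]; ring_nf
          _ ≤ (((2 ^ L : ℕ)) : ℝ) ^ (2 * l) := by
              gcongr
          _ = ((2 ^ p : ℕ) : ℝ) := by
              push_cast
              rw [← pow_mul, hp]
              ring_nf
          _ ≤ ((4 * ((p * l) ^ l) ^ 2 * T : ℕ) : ℝ) := by exact_mod_cast hA
          _ = 4 * ((((p * l) ^ l) ^ 2 : ℕ) : ℝ) * T := by push_cast; ring
          _ ≤ 4 * t ^ (5 * l) * T := by gcongr
      have h2 : 4 * t ^ (l + 1) ≤ t ^ (11 * l) := by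
        calc 4 * t ^ (l + 1) ≤ t * t ^ (l + 1) := by gcongr
          _ = t ^ (l + 2) := by ring
          _ ≤ t ^ (11 * l) := pow_le_pow_right₀ ht1 (by omega)
      have h3 : (4 * t ^ (5 * l)) * t ^ (l + 1) ≤ (4 * t ^ (5 * l)) * T := by
        calc (4 * t ^ (5 * l)) * t ^ (l + 1) = t ^ (5 * l) * (4 * t ^ (l + 1)) := by ring
          _ ≤ t ^ (5 * l) * t ^ (11 * l) := by gcongr
          _ = t ^ (16 * l) := by rw [← pow_add]; ring_nf
          _ ≤ _ := h1
      exact le_of_mul_le_mul_left h3 (by positivity)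
    · have hls : l + 1 ≤ q := by
        have : l * 1 ≤ l * l := Nat.mul_le_mul_left l (by omega)
        omega
      have h1 := choose_ratio hqle (l + 1) hls
      have h2 : 0 < (n - (l + 1)).choose (q - (l + 1)) := Nat.choose_pos (by omega)
      have h3 : n ^ (l + 1) ≤ q ^ (l + 1) * (T * ((p * l) ^ l) ^ 2) := by
        apply Nat.le_of_mul_le_mul_right _ h2
        calc n ^ (l + 1) * (n - (l + 1)).choose (q - (l + 1)) ≤ q ^ (l + 1) * n.choose q := h1
          _ ≤ q ^ (l + 1) *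
              (T * (((p * l) ^ l) ^ 2 * (n - (l + 1)).choose (q - (l + 1)))) :=
            Nat.mul_le_mul_left _ hB
          _ = _ := by ring
      have h4 : t ^ (8 * (l + 1)) ≤ t ^ (2 * (l + 1) + 5 * l) * T := by
        calc t ^ (8 * (l + 1)) = (n : ℝ) ^ (l + 1) := by rw [← ht8, ← pow_mul]
          _ ≤ ((q ^ (l + 1) * (T * ((p * l) ^ l) ^ 2) : ℕ) : ℝ) := by exact_mod_cast h3
          _ = (q : ℝ) ^ (l + 1) * (T * ((((p * l) ^ l) ^ 2 : ℕ) : ℝ)) := by push_cast; ring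
          _ ≤ (t ^ 2) ^ (l + 1) * (T * t ^ (5 * l)) := by gcongr
          _ = t ^ (2 * (l + 1) + 5 * l) * T := by rw [← pow_mul, pow_add]; ring
      have h5 : t ^ (2 * (l + 1) + 5 * l) * t ^ (l + 1) ≤ t ^ (2 * (l + 1) + 5 * l) * T := by
        refine le_trans ?_ h4
        rw [← pow_add]
        exact pow_le_pow_right₀ ht1 (by omega)
      exact le_of_mul_le_mul_left h5 (by positivity)
  have hsq : √(q : ℝ) ≤ l + 1 := by
    rw [Real.sqrt_le_left (by positivity)]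
    have : (q : ℝ) ≤ ((l : ℝ) + 1) * (l + 1) := by exact_mod_cast hlq'
    rwa [← sq] at this
  calc (n : ℝ) ^ (√q / 8) ≤ (n : ℝ) ^ (((l : ℝ) + 1) / 8) :=
        Real.rpow_le_rpow_of_exponent_le hn1 (by linarith)
    _ = t ^ (l + 1) := by
        rw [ht, ← Real.rpow_natCast, ← Real.rpow_mul (by positivity)]
        congr 1
        push_cast
        ring
    _ ≤ T := hmain

end Pool.Agent.NEG72
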