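import Pool.Agent.NEG72.Circ

/-!
# Few negations do not help for an OR of disjoint copies
-/

namespace Pool.Agent.NEG72

open Finset

variable {X : Type} {m : ℕ}

/-- the input with the blocks of `A` given by `y` and all other blocks zero -/
def blk (A : Finset (Fin m)) (y : Fin m → X → Bool) : Fin m × X → Bool :=
  fun p => decide (p.1 ∈ A) && y p.1 p.2

lemma blk_true {A : Finset (Fin m)} {y : Fin m → X → Bool} {p : Fin m × X} :
    blk A y p = true ↔ p.1 ∈ A ∧ y p.1 p.2 = true := by
  simp [blk]

lemma blk_mono {A A' : Finset (Fin m)} {y y' : Fin m → X → Bool} (h : A ⊆ A')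
    (hy : ∀ i ∈ A, y' i = y i) (p : Fin m × X) (hp : blk A y p = true) : blk A' y' p = true := by
  rw [blk_true] at hp ⊢
  exact ⟨h hp.1, by rw [hy _ hp.1]; exact hp.2⟩

/-- the number of NOT gates below `t` -/
def Circuit.notsBelow (C : Circuit X) (t : ℕ) : ℕ :=
  ((Finset.range t).filter fun k => (C.gate k).isNot = true).card

lemma Circuit.notsBelow_succ (C : Circuit X) (t : ℕ) :
    C.notsBelow (t + 1) = C.notsBelow t + if (C.gate t).isNot = true then 1 else 0 := by
  unfold Circuit.notsBelow
  rw [Finset.range_add_one, Finset.filter_insert]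
  split_ifs with h
  · rw [Finset.card_insert_of_notMem (by simp)]
  · rfl

/-- the critical gates: the output and the inputs of the NOT gates with guess `true` -/
def Circuit.crit (C : Circuit X) (z : ℕ → Bool) (k : ℕ) : Prop :=
  k = C.out ∨ ∃ i < C.size, C.gate i = .not k ∧ z i = true

/-- the stages of the construction -/
theorem stage (f : (X → Bool) → Prop) (C : Circuit (Fin m × X)) :
    ∀ t ≤ C.size, ∃ (A W : Finset (Fin m)) (y : Fin m → X → Bool) (z : ℕ → Bool), A ⊆ W ∧
      (∀ i ∈ A, ¬ f (y i)) ∧ m + 1 ≤ 2 ^ C.notsBelow t * ((W \ A).card + 1) ∧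
      ∀ k < t, ∀ a, C.gate k = .not a →
        ((z k = false ∧ C.pval z (blk A y) a = true) ∨
          (z k = true ∧ ∀ (A' : Finset (Fin m)) (y' : Fin m → X → Bool), A ⊆ A' → A' ⊆ W →
            (∀ i ∈ A, y' i = y i) → (∀ i ∈ A', ¬ f (y' i)) → C.pval z (blk A' y') a = false)) := by
  intro t
  induction t with
  | zero =>
    intro _
    refine ⟨∅, univ, fun _ _ => false, fun _ => false, by simp, by simp, ?_, by simp⟩
    simp [Circuit.notsBelow]
  | succ t ih =>
    intro ht
    obtain ⟨A, W, y, z, hAW, hneg, hcard, hk⟩ := ih (by omega)
    rw [Circuit.notsBelow_succ]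
    by_cases hnot : (C.gate t).isNot = true
    swap
    · refine ⟨A, W, y, z, hAW, hneg, by simpa [hnot] using hcard, ?_⟩
      intro k hkt a hg
      rcases Nat.lt_succ_iff_lt_or_eq.1 hkt with h | h
      · exact hk k h a hg
      · subst h
        rw [hg] at hnot
        exact absurd rfl hnot
    obtain ⟨a, ha⟩ : ∃ a, C.gate t = .not a := by
      cases hg : C.gate t with
      | not a => exact ⟨a, rfl⟩
      | _ => rw [hg] at hnot; exact absurd hnot (by simp [Gate.isNot])
    have hat : a < t := C.earlier t (by omega) a (by rw [ha]; simp [Gate.args])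
    have hlt : ∀ k < t, ∀ b, C.gate k = .not b → b < t := fun k hkt b hg =>
      (C.earlier k (by omega) b (by rw [hg]; simp [Gate.args])).trans hkt
    have hcongr : ∀ (v : Bool) (x : Fin m × X → Bool) (b : ℕ), b < t →
        C.pval (Function.update z t v) x b = C.pval z x b := by
      intro v x b hb
      apply C.pval_congr
      intro i hi
      rw [Function.update_of_ne (by omega)]
    rw [if_pos hnot, pow_succ]
    by_cases hex : ∃ (A' : Finset (Fin m)) (y' : Fin m → X → Bool), A ⊆ A' ∧ A' ⊆ W ∧
        (∀ i ∈ A, y' i = y i) ∧ (∀ i ∈ A', ¬ f (y' i)) ∧ 2 * (A' \ A).card ≤ (W \ A).card ∧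
        C.pval z (blk A' y') a = true
    · obtain ⟨A', y', h1, h2, h3, h4, h5, h6⟩ := hex
      refine ⟨A', W, y', Function.update z t false, h2, h4, ?_, ?_⟩
      · have h7 : (W \ A).card = (W \ A').card + (A' \ A).card := by
          rw [← Finset.card_union_of_disjoint]
          · congr 1
            ext i
            simp only [mem_sdiff, mem_union]
            constructor
            · rintro ⟨u1, u2⟩
              by_cases u3 : i ∈ A'
              · exact Or.inr ⟨u3, u2⟩
              · exact Or.inl ⟨u1, u3⟩
            · rintro (⟨u1, u2⟩ | ⟨u1, u2⟩)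
              · exact ⟨u1, fun u => u2 (h1 u)⟩
              · exact ⟨h2 u1, u2⟩
          · rw [Finset.disjoint_left]
            intro i hi hi'
            exact (mem_sdiff.1 hi).2 (mem_sdiff.1 hi').1
        calc m + 1 ≤ 2 ^ C.notsBelow t * ((W \ A).card + 1) := hcard
          _ ≤ 2 ^ C.notsBelow t * (2 * ((W \ A').card + 1)) := by
            apply Nat.mul_le_mul_left
            omega
          _ = 2 ^ C.notsBelow t * 2 * ((W \ A').card + 1) := by ring
      · intro k hkt b hg
        rcases Nat.lt_succ_iff_lt_or_eq.1 hkt with h | h
        · rw [Function.update_of_ne (by omega)]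
          have hb := hlt k h b hg
          rcases hk k h b hg with ⟨u1, u2⟩ | ⟨u1, u2⟩
          · left
            refine ⟨u1, ?_⟩
            rw [hcongr _ _ _ hb]
            exact C.pval_mono z (fun v hv => blk_mono h1 h3 v hv) b u2
          · right
            refine ⟨u1, fun A'' y'' v1 v2 v3 v4 => ?_⟩
            rw [hcongr _ _ _ hb]
            exact u2 A'' y'' (h1.trans v1) v2
              (fun i hi => (v3 i (h1 hi)).trans (h3 i hi)) v4
        · subst h
          left
          rw [ha] at hg
          obtain rfl : a = b := by injection hg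
          exact ⟨Function.update_self .., by rw [hcongr _ _ _ hat]; exact h6⟩
    · push Not at hex
      obtain ⟨B, hB1, hB2⟩ : ∃ B ⊆ W \ A, B.card = (W \ A).card / 2 :=
        Finset.exists_subset_card_eq (Nat.div_le_self _ _)
      have hAB : (A ∪ B) \ A = B := by
        ext i
        simp only [mem_sdiff, mem_union]
        constructor
        · rintro ⟨u1 | u1, u2⟩
          · exact absurd u1 u2
          · exact u1
        · intro u
          exact ⟨Or.inr u, (mem_sdiff.1 (hB1 u)).2⟩
      have hABW : A ∪ B ⊆ W :=
        Finset.union_subset hAW fun i hi => (mem_sdiff.1 (hB1 hi)).1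
      refine ⟨A, A ∪ B, y, Function.update z t true, subset_union_left, hneg, ?_, ?_⟩
      · rw [hAB, hB2]
        calc m + 1 ≤ 2 ^ C.notsBelow t * ((W \ A).card + 1) := hcard
          _ ≤ 2 ^ C.notsBelow t * (2 * ((W \ A).card / 2 + 1)) := by
            apply Nat.mul_le_mul_left
            omega
          _ = 2 ^ C.notsBelow t * 2 * ((W \ A).card / 2 + 1) := by ring
      · intro k hkt b hg
        rcases Nat.lt_succ_iff_lt_or_eq.1 hkt with h | h
        · rw [Function.update_of_ne (by omega)]
          have hb := hlt k h b hg
          rcases hk k h b hg with ⟨u1, u2⟩ | ⟨u1, u2⟩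
          · left
            exact ⟨u1, by rw [hcongr _ _ _ hb]; exact u2⟩
          · right
            refine ⟨u1, fun A' y' v1 v2 v3 v4 => ?_⟩
            rw [hcongr _ _ _ hb]
            exact u2 A' y' v1 (v2.trans hABW) v3 v4
        · subst h
          right
          rw [ha] at hg
          obtain rfl : a = b := by injection hg
          refine ⟨Function.update_self .., fun A' y' v1 v2 v3 v4 => ?_⟩
          rw [hcongr _ _ _ hat]
          have h8 : (A' \ A).card ≤ (W \ A).card / 2 := by
            rw [← hB2, ← hAB]
            exact Finset.card_le_card (Finset.sdiff_subset_sdiff v2 (le_refl A))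
          have h9 := hex A' y' v1 (v2.trans hABW) v3 v4 (by omega)
          simpa using h9

/-- **Few negations do not help.** Let the circuit `C` compute the OR of `m` copies of `f` on
disjoint sets of variables and let `2 ^ r ≤ m`, where `r` is the number of NOT gates of `C`. Then
there are guesses `z` for the values of the NOT gates, a block `b` and values of the variables of
the other blocks such that `f` is the OR of the monotone functions which the critical gates compute
on the block `b` if the value of every NOT gate is replaced by the guess. -/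
theorem reduction (f : (X → Bool) → Prop) (hf : ¬ f fun _ => false)
    (C : Circuit (Fin m × X)) (hC : C.Computes fun x => ∃ i, f fun v => x (i, v))
    (hr : 2 ^ C.nots ≤ m) :
    ∃ (z : ℕ → Bool) (A : Finset (Fin m)) (b : Fin m) (y : Fin m → X → Bool), b ∉ A ∧
      ∀ x : X → Bool, f x ↔
        ∃ k, C.crit z k ∧ C.pval z (blk (insert b A) (Function.update y b x)) k = true := by
  obtain ⟨A, W, y, z, hAW, hneg, hcard, hk⟩ := stage f C C.size le_rfl
  have hpos : 0 < (W \ A).card := by
    rcases Nat.eq_zero_or_pos (W \ A).card with h | h
    · rw [h, zero_add, mul_one] at hcard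
      have : C.notsBelow C.size = C.nots := rfl
      rw [this] at hcard
      omega
    · exact h
  obtain ⟨b, hb⟩ := Finset.card_pos.1 hpos
  rw [mem_sdiff] at hb
  refine ⟨z, A, b, y, hb.2, fun x => ?_⟩
  set w := blk (insert b A) (Function.update y b x) with hw
  have hyA : ∀ i ∈ A, Function.update y b x i = y i := by
    intro i hi
    rw [Function.update_of_ne]
    rintro rfl
    exact hb.2 hi
  -- the value of the OR of the copies
  have hval : (∃ i, f fun v => w (i, v)) ↔ f x := by
    constructor
    · rintro ⟨i, hi⟩
      by_cases hib : i = b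
      · subst hib
        convert hi using 1
        ext v
        simp [hw, blk]
      · by_cases hiA : i ∈ A
        · exfalso
          apply hneg i hiA
          convert hi using 1
          ext v
          rw [hw]
          simp [blk, hiA, Function.update_of_ne hib]
        · exfalso
          apply hf
          convert hi using 1
          ext v
          rw [hw]
          simp [blk, hiA, hib]
    · intro hx
      refine ⟨b, ?_⟩
      convert hx using 1
      ext v
      simp [hw, blk]
  -- the first kind of NOT gates
  have hfirst : ∀ k < C.size, ∀ a, C.gate k = .not a → z k = false → C.pval z w a = true := by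
    intro k hks a hg hz
    rcases hk k hks a hg with ⟨_, u⟩ | ⟨u, _⟩
    · exact C.pval_mono z (fun v hv => blk_mono (subset_insert _ _) hyA v hv) a u
    · rw [hz] at u
      exact absurd u (by decide)
  constructor
  · intro hx
    by_contra hcon
    push Not at hcon
    have hgood : ∀ k < C.size, ∀ a, C.gate k = .not a → z k = !(C.pval z w a) := by
      intro k hks a hg
      cases hz : z k with
      | false => rw [hfirst k hks a hg hz]; rfl
      | true =>
        have := hcon a (Or.inr ⟨k, hks, hg, hz⟩)
        simp only [Bool.not_eq_true] at this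
        rw [this]
        rfl
    have h1 := C.pval_eq_val hgood C.out C.out_lt
    have h2 := hcon C.out (Or.inl rfl)
    rw [h1] at h2
    exact h2 ((hC w).2 (hval.2 hx))
  · rintro ⟨k, hkc, hkt⟩
    by_contra hx
    have hneg' : ∀ i ∈ insert b A, ¬ f (Function.update y b x i) := by
      intro i hi
      rcases Finset.mem_insert.1 hi with rfl | hi
      · rw [Function.update_self]
        exact hx
      · rw [hyA i hi]
        exact hneg i hi
    have hsecond : ∀ k < C.size, ∀ a, C.gate k = .not a → z k = true → C.pval z w a = false := by
      intro k hks a hg hz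
      rcases hk k hks a hg with ⟨u, _⟩ | ⟨_, u⟩
      · rw [hz] at u
        exact absurd u (by decide)
      · exact u _ _ (subset_insert _ _) (Finset.insert_subset hb.1 hAW) hyA hneg'
    have hgood : ∀ k < C.size, ∀ a, C.gate k = .not a → z k = !(C.pval z w a) := by
      intro k hks a hg
      cases hz : z k with
      | false => rw [hfirst k hks a hg hz]; rfl
      | true => rw [hsecond k hks a hg hz]; rfl
    rcases hkc with rfl | ⟨i, hi, hg, hz⟩
    · rw [C.pval_eq_val hgood C.out C.out_lt] at hkt
      exact hx (hval.1 ((hC w).1 hkt))
    · rw [hsecond i hi k hg hz] at hkt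
      exact absurd hkt (by decide)

end Pool.Agent.NEG72
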