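import Mathlib

/-!
# The sunflower lemma
-/

namespace Pool.Agent.NEG72

open Finset

variable {α : Type*} [DecidableEq α]

/-- `S` is a sunflower with core `Z` -/
def IsSun (S : Finset (Finset α)) (Z : Finset α) : Prop :=
  (∀ X ∈ S, Z ⊆ X) ∧ ∀ X ∈ S, ∀ Y ∈ S, X ≠ Y → X ∩ Y = Z

/-- **Sunflower lemma** (Erdos, Rado) for sets of size at most `l`. -/
theorem sunflower {p : ℕ} (hp : 1 ≤ p) : ∀ (l : ℕ) (A : Finset (Finset α)),
    (∀ X ∈ A, X.card ≤ l) → (p * l) ^ l < A.card →
      ∃ S ⊆ A, S.card = p ∧ ∃ Z, IsSun S Z := by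
  intro l
  induction l with
  | zero =>
    intro A hA hc
    exfalso
    have h1 : A ⊆ {∅} := by
      intro X hX
      have := hA X hX
      rw [Nat.le_zero, Finset.card_eq_zero] at this
      simp [this]
    have h2 := Finset.card_le_card h1
    simp only [mul_zero, pow_zero, card_singleton] at hc h2
    omega
  | succ l ih =>
    intro A hA hc
    -- a maximal disjoint subfamily
    obtain ⟨D, hD, hmax⟩ : ∃ D ∈ A.powerset.filter (fun D => ∀ X ∈ D, ∀ Y ∈ D, X ≠ Y →
        X ∩ Y = ∅), ∀ E ∈ A.powerset.filter (fun D => ∀ X ∈ D, ∀ Y ∈ D, X ≠ Y → X ∩ Y = ∅),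
        E.card ≤ D.card := by
      apply Finset.exists_max_image _ Finset.card
      exact ⟨∅, by simp⟩
    rw [mem_filter, mem_powerset] at hD
    by_cases hDp : p ≤ D.card
    · obtain ⟨S, hS1, hS2⟩ := Finset.exists_subset_card_eq hDp
      refine ⟨S, hS1.trans hD.1, hS2, ∅, fun X _ => empty_subset _, ?_⟩
      intro X hX Y hY hXY
      exact hD.2 X (hS1 hX) Y (hS1 hY) hXY
    set U := D.biUnion id with hU
    have hUc : U.card ≤ (p - 1) * (l + 1) := by
      calc U.card ≤ ∑ X ∈ D, (id X).card := Finset.card_biUnion_le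
        _ ≤ ∑ _X ∈ D, (l + 1) := Finset.sum_le_sum fun X hX => hA X (hD.1 hX)
        _ = D.card * (l + 1) := by rw [Finset.sum_const, smul_eq_mul]
        _ ≤ (p - 1) * (l + 1) := Nat.mul_le_mul_right _ (by omega)
    have hmeet : ∀ X ∈ A, X ≠ ∅ → ∃ u ∈ U, u ∈ X := by
      intro X hX hne
      by_contra hcon
      push Not at hcon
      have hdis : ∀ Y ∈ D, X ∩ Y = ∅ := by
        intro Y hY
        rw [Finset.eq_empty_iff_forall_notMem]
        intro u hu
        rw [mem_inter] at hu
        exact hcon u (Finset.mem_biUnion.2 ⟨Y, hY, hu.2⟩) hu.1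
      have hXD : X ∉ D := by
        intro h
        have := hdis X h
        rw [inter_self] at this
        exact hne this
      have h1 : (insert X D).card ≤ D.card := by
        apply hmax
        rw [mem_filter, mem_powerset]
        refine ⟨Finset.insert_subset hX hD.1, ?_⟩
        intro Y hY Y' hY' hne'
        rcases Finset.mem_insert.1 hY with h1 | h1
        · rcases Finset.mem_insert.1 hY' with h2 | h2
          · exact absurd (h1.trans h2.symm) hne'
          · rw [h1]
            exact hdis Y' h2
        · rcases Finset.mem_insert.1 hY' with h2 | h2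
          · rw [h2, inter_comm]
            exact hdis Y h1
          · exact hD.2 Y h1 Y' h2 hne'
      rw [Finset.card_insert_of_notMem hXD] at h1
      omega
    -- a popular element
    obtain ⟨u, hu⟩ : ∃ u ∈ U, (p * l) ^ l < (A.filter fun X => u ∈ X).card := by
      by_contra hcon
      push Not at hcon
      have h1 : A ⊆ {∅} ∪ U.biUnion fun u => A.filter fun X => u ∈ X := by
        intro X hX
        rw [mem_union, mem_singleton, mem_biUnion]
        by_cases hne : X = ∅
        · exact Or.inl hne
        · obtain ⟨u, hu, hu'⟩ := hmeet X hX hne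
          exact Or.inr ⟨u, hu, mem_filter.2 ⟨hX, hu'⟩⟩
      have h2 : A.card ≤ 1 + (p - 1) * (l + 1) * (p * l) ^ l := by
        calc A.card ≤ _ := Finset.card_le_card h1
          _ ≤ ({∅} : Finset (Finset α)).card +
              (U.biUnion fun u => A.filter fun X => u ∈ X).card := Finset.card_union_le _ _
          _ ≤ 1 + ∑ u ∈ U, (A.filter fun X => u ∈ X).card := by
            rw [card_singleton]
            exact Nat.add_le_add_left Finset.card_biUnion_le _
          _ ≤ 1 + ∑ _u ∈ U, (p * l) ^ l := by
            apply Nat.add_le_add_left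
            exact Finset.sum_le_sum hcon
          _ = 1 + U.card * (p * l) ^ l := by rw [Finset.sum_const, smul_eq_mul]
          _ ≤ 1 + (p - 1) * (l + 1) * (p * l) ^ l := by
            apply Nat.add_le_add_left
            exact Nat.mul_le_mul_right _ hUc
      have h3 : (p * l) ^ l ≤ (p * (l + 1)) ^ l :=
        Nat.pow_le_pow_left (Nat.mul_le_mul_left _ (by omega)) _
      have h4 : 1 ≤ (p * (l + 1)) ^ l := Nat.one_le_pow _ _ (by positivity)
      have h5 : (p * (l + 1)) ^ (l + 1) = (p - 1) * (l + 1) * (p * (l + 1)) ^ l +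
          (l + 1) * (p * (l + 1)) ^ l := by
        obtain ⟨q, rfl⟩ : ∃ q, p = q + 1 := ⟨p - 1, by omega⟩
        rw [pow_succ]
        simp only [Nat.add_sub_cancel]
        ring
      have h6 : (p - 1) * (l + 1) * (p * l) ^ l ≤ (p - 1) * (l + 1) * (p * (l + 1)) ^ l :=
        Nat.mul_le_mul_left _ h3
      have h7 : 1 ≤ (l + 1) * (p * (l + 1)) ^ l := Nat.one_le_iff_ne_zero.2 (by positivity)
      omega
    obtain ⟨hu1, hu2⟩ := hu
    set Au := A.filter fun X => u ∈ X with hAu
    have hinj : Set.InjOn (fun X : Finset α => X.erase u) Au := by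
      intro X hX Y hY hXY
      rw [hAu, mem_coe, mem_filter] at hX hY
      have : insert u (X.erase u) = insert u (Y.erase u) := by
        simp only at hXY
        rw [hXY]
      rwa [Finset.insert_erase hX.2, Finset.insert_erase hY.2] at this
    obtain ⟨S', hS1, hS2, Z, hZ1, hZ2⟩ := ih (Au.image fun X => X.erase u) (by
      intro X hX
      obtain ⟨Y, hY, rfl⟩ := mem_image.1 hX
      rw [hAu, mem_filter] at hY
      have h1 := hA Y hY.1
      have h2 := Finset.card_erase_of_mem hY.2
      omega) (by rw [Finset.card_image_of_injOn hinj]; exact hu2)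
    have hnot : ∀ X ∈ S', u ∉ X := by
      intro X hX
      obtain ⟨Y, _, rfl⟩ := mem_image.1 (hS1 hX)
      exact Finset.notMem_erase _ _
    have hmem : ∀ X ∈ S', insert u X ∈ A := by
      intro X hX
      obtain ⟨Y, hY, rfl⟩ := mem_image.1 (hS1 hX)
      rw [hAu, mem_filter] at hY
      rw [Finset.insert_erase hY.2]
      exact hY.1
    have hinj' : Set.InjOn (fun X : Finset α => insert u X) S' := by
      intro X hX Y hY hXY
      have : (insert u X).erase u = (insert u Y).erase u := by
        simp only at hXY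
        rw [hXY]
      rwa [Finset.erase_insert (hnot X hX), Finset.erase_insert (hnot Y hY)] at this
    refine ⟨S'.image fun X => insert u X, ?_, ?_, insert u Z, ?_, ?_⟩
    · intro X hX
      obtain ⟨Y, hY, rfl⟩ := mem_image.1 hX
      exact hmem Y hY
    · rw [Finset.card_image_of_injOn hinj', hS2]
    · intro X hX
      obtain ⟨Y, hY, rfl⟩ := mem_image.1 hX
      exact Finset.insert_subset_insert _ (hZ1 Y hY)
    · intro X hX Y hY hXY
      obtain ⟨X', hX', rfl⟩ := mem_image.1 hX
      obtain ⟨Y', hY', rfl⟩ := mem_image.1 hY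
      rw [← Finset.insert_inter_distrib, hZ2 X' hX' Y' hY' (fun h => hXY (by rw [h]))]

end Pool.Agent.NEG72
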