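import Pool.Agent.NEG72.Num

/-!
# Numerics for the windows
-/

namespace Pool.Agent.NEG72

theorem numerics_win {b k T : ℕ} (hb : 2 ^ 200 ≤ b) (hk : 5 ≤ k) (hkb : k ^ 4 ≤ b)
    (h : ∀ l p, l * (l - 1) ≤ k - 1 → 2 ≤ l → 2 ≤ p →
      2 ^ p ≤ 4 * ((p * l) ^ l) ^ 2 * T ∨
        b ^ k ≤ T * (((p * l) ^ l) ^ 2 * b ^ (k - (l + 1)))) :
    (b : ℝ) ^ (√k / 8) ≤ T := by
  set l := Nat.sqrt (k - 1) with hl
  have hll : l * l ≤ k - 1 := Nat.sqrt_le _
  have hl2 : 2 ≤ l := Nat.le_sqrt.2 (by omega)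
  have hlk : k - 1 < (l + 1) * (l + 1) := Nat.lt_succ_sqrt _
  have hlk' : k ≤ (l + 1) * (l + 1) := by omega
  set L := Nat.log 2 b + 1 with hL
  have hbL : b < 2 ^ L := Nat.lt_pow_succ_log_self (by norm_num) b
  have hb0 : b ≠ 0 := by positivity
  have hLb : 2 ^ (L - 1) ≤ b := by
    rw [hL, Nat.add_sub_cancel]
    exact Nat.pow_log_le_self 2 hb0
  have hL200 : 200 ≤ L - 1 := by
    rw [hL, Nat.add_sub_cancel]
    exact (Nat.le_log_iff_pow_le (by norm_num) hb0).2 hb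
  have hL16 : (2 * L) ^ 16 ≤ b := by
    have := log_bound (L - 1) hL200
    have e : L - 1 + 1 = L := by omega
    rw [e] at this
    exact this.trans hLb
  have hb1 : (1 : ℝ) ≤ b := by exact_mod_cast Nat.one_le_iff_ne_zero.2 hb0
  set t : ℝ := (b : ℝ) ^ (1 / 8 : ℝ) with ht
  have ht0 : 0 < t := by positivity
  have ht8 : t ^ 8 = b := by
    rw [ht, ← Real.rpow_natCast, ← Real.rpow_mul (by positivity)]
    norm_num
  have htL : ((2 * L : ℕ) : ℝ) ^ 2 ≤ t := by
    have : (((2 * L : ℕ) : ℝ) ^ 2) ^ 8 ≤ t ^ 8 := by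
      rw [ht8, ← pow_mul]
      exact_mod_cast hL16
    exact (pow_le_pow_iff_left₀ (by positivity) ht0.le (by norm_num)).1 this
  have htk : (k : ℝ) ≤ t ^ 2 := by
    have : (k : ℝ) ^ 4 ≤ (t ^ 2) ^ 4 := by
      rw [← pow_mul, ht8]
      exact_mod_cast hkb
    exact (pow_le_pow_iff_left₀ (by positivity) (by positivity) (by norm_num)).1 this
  have ht4 : 4 ≤ t := by
    have : (4 : ℝ) ^ 8 ≤ t ^ 8 := by
      rw [ht8]
      have : (4 : ℕ) ^ 8 ≤ b := le_trans (by norm_num) hb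
      exact_mod_cast this
    exact (pow_le_pow_iff_left₀ (by positivity) (by positivity) (by norm_num)).1 this
  have ht1 : 1 ≤ t := by linarith
  have hlt : ((l : ℕ) : ℝ) ^ 2 ≤ t ^ 2 := by
    refine le_trans ?_ htk
    have : l ^ 2 ≤ k := by rw [sq]; omega
    exact_mod_cast this
  set p := 2 * l * L with hp
  have hp2 : 2 ≤ p := by
    rw [hp]
    calc 2 = 2 * 1 * 1 := rfl
      _ ≤ 2 * l * L := Nat.mul_le_mul (Nat.mul_le_mul_left 2 (by omega)) (by omega)
  have hP : (((((p * l) ^ l) ^ 2 : ℕ)) : ℝ) ≤ t ^ (5 * l) := by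
    have h1 : ((p * l : ℕ) : ℝ) ^ 2 ≤ t ^ 5 := by
      calc ((p * l : ℕ) : ℝ) ^ 2 = ((2 * L : ℕ) : ℝ) ^ 2 * ((l : ℝ) ^ 2) ^ 2 := by
            rw [hp]; push_cast; ring
        _ ≤ t * (t ^ 2) ^ 2 := by gcongr
        _ = t ^ 5 := by ring
    calc (((((p * l) ^ l) ^ 2 : ℕ)) : ℝ) = (((p * l : ℕ) : ℝ) ^ 2) ^ l := by
          push_cast
          rw [← pow_mul, ← pow_mul, mul_comm l 2]
      _ ≤ (t ^ 5) ^ l := by gcongr
      _ = t ^ (5 * l) := by rw [← pow_mul]
  have hmain : t ^ (l + 1) ≤ T := by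
    rcases h l p ((Nat.mul_le_mul_left l (by omega)).trans hll) hl2 hp2 with hA | hB
    · have h1 : t ^ (16 * l) ≤ 4 * t ^ (5 * l) * T := by
        calc t ^ (16 * l) = (b : ℝ) ^ (2 * l) := by
              rw [← ht8, ← pow_mul]; ring_nf
          _ ≤ (((2 ^ L : ℕ)) : ℝ) ^ (2 * l) := by
              gcongr
          _ = ((2 ^ p : ℕ) : ℝ) := by
              push_cast
              rw [← pow_mul, hp]
              ring_nf
          _ ≤ ((4 * ((p * l) ^ l) ^ 2 * T : ℕ) : ℝ) := by exact_mod_cast hA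
          _ = 4 * ((((p * l) ^ l) ^ 2 : ℕ) : ℝ) * T := by push_cast; ring
          _ ≤ 4 * t ^ (5 * l) * T := by gcongr
      have h2 : 4 * t ^ (l + 1) ≤ t ^ (11 * l) := by
        calc 4 * t ^ (l + 1) ≤ t * t ^ (l + 1) := by gcongr
          _ = t ^ (l + 2) := by ring
          _ ≤ t ^ (11 * l) := pow_le_pow_right₀ ht1 (by omega)
      have h3 : (4 * t ^ (5 * l)) * t ^ (l + 1) ≤ (4 * t ^ (5 * l)) * T := by
        calc (4 * t ^ (5 * l)) * t ^ (l + 1) = t ^ (5 * l) * (4 * t ^ (l + 1)) := by ring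
          _ ≤ t ^ (5 * l) * t ^ (11 * l) := by gcongr
          _ = t ^ (16 * l) := by rw [← pow_add]; ring_nf
          _ ≤ _ := h1
      exact le_of_mul_le_mul_left h3 (by positivity)
    · have hls : l + 1 ≤ k := by
        have : l * 1 ≤ l * l := Nat.mul_le_mul_left l (by omega)
        omega
      have h3 : b ^ (l + 1) ≤ T * ((p * l) ^ l) ^ 2 := by
        have h2 : 0 < b ^ (k - (l + 1)) := by positivity
        apply Nat.le_of_mul_le_mul_right _ h2
        calc b ^ (l + 1) * b ^ (k - (l + 1)) = b ^ k := by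
              rw [← pow_add]
              congr 1
              omega
          _ ≤ T * (((p * l) ^ l) ^ 2 * b ^ (k - (l + 1))) := hB
          _ = _ := by ring
      have h4 : t ^ (8 * (l + 1)) ≤ t ^ (5 * l) * T := by
        calc t ^ (8 * (l + 1)) = (b : ℝ) ^ (l + 1) := by rw [← ht8, ← pow_mul]
          _ ≤ ((T * ((p * l) ^ l) ^ 2 : ℕ) : ℝ) := by exact_mod_cast h3
          _ = T * ((((p * l) ^ l) ^ 2 : ℕ) : ℝ) := by push_cast; ring
          _ ≤ T * t ^ (5 * l) := by gcongr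
          _ = t ^ (5 * l) * T := by ring
      have h5 : t ^ (5 * l) * t ^ (l + 1) ≤ t ^ (5 * l) * T := by
        refine le_trans ?_ h4
        rw [← pow_add]
        exact pow_le_pow_right₀ ht1 (by omega)
      exact le_of_mul_le_mul_left h5 (by positivity)
  have hsq : √(k : ℝ) ≤ l + 1 := by
    rw [Real.sqrt_le_left (by positivity)]
    have : (k : ℝ) ≤ ((l : ℝ) + 1) * (l + 1) := by exact_mod_cast hlk'
    rwa [← sq] at this
  calc (b : ℝ) ^ (√k / 8) ≤ (b : ℝ) ^ (((l : ℝ) + 1) / 8) :=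
        Real.rpow_le_rpow_of_exponent_le hb1 (by linarith)
    _ = t ^ (l + 1) := by
        rw [ht, ← Real.rpow_natCast, ← Real.rpow_mul (by positivity)]
        congr 1
        push_cast
        ring
    _ ≤ T := hmain

end Pool.Agent.NEG72
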