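import Pool.Agent.NEG72.WinMon
import Pool.Agent.NEG72.WinNum

/-!
# The clique problem contains almost `v ^ 2` independent hard clique problems
-/

namespace Pool.Agent.NEG72

open Finset Pool.Agent.NegLim

/-! ### duality -/

/-- the dual of a Boolean function -/
def dual {E : Type} (f : (E → Bool) → Bool) (x : E → Bool) : Bool := !(f fun e => !(x e))

lemma avail_dual {E : Type} {L : List ((E → Bool) → Bool)} {f : (E → Bool) → Bool}
    (h : Avail L f) : Avail (L.map dual) (dual f) := by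
  rcases h with h | ⟨i, rfl⟩ | ⟨b, rfl⟩
  · exact Or.inl (List.mem_map_of_mem h)
  · refine Or.inr (Or.inl ⟨i, ?_⟩)
    funext x
    simp [dual]
  · exact Or.inr (Or.inr ⟨!b, rfl⟩)

lemma mon_dual {E : Type} {L : List ((E → Bool) → Bool)} (h : Mon L) : Mon (L.map dual) := by
  induction h with
  | nil => exact Mon.nil
  | @and L f g _ hf hg ih =>
    have e : dual (fun x => f x && g x) = fun x => dual f x || dual g x := by
      funext x
      simp [dual]
    rw [List.map_cons, e]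
    exact Mon.or ih (avail_dual hf) (avail_dual hg)
  | @or L f g _ hf hg ih =>
    have e : dual (fun x => f x || g x) = fun x => dual f x && dual g x := by
      funext x
      simp [dual]
    rw [List.map_cons, e]
    exact Mon.and ih (avail_dual hf) (avail_dual hg)

lemma monSize_dual {E : Type} {f : (E → Bool) → Bool} {T : ℕ} (h : MonSize f T) :
    MonSize (dual f) T := by
  obtain ⟨L, hL, hT, hf⟩ := h
  exact ⟨L.map dual, mon_dual hL, by rwa [List.length_map], avail_dual hf⟩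

/-! ### the parameters -/

theorem params (ε : ℝ) (hε : 0 < ε) (hε1 : ε ≤ 1) : ∃ v₀ : ℕ, ∀ v ≥ v₀, ∀ k : ℕ,
    k = ⌊(v : ℝ) ^ (ε / 32)⌋₊ → ∃ (Q b : ℕ) (D : Finset ℕ), 2 ≤ k ∧ 0 < b ∧
      ThreeAPFree (D : Set ℕ) ∧ (∀ w ∈ Finset.range Q ×ˢ D, ∀ i < k, w.1 + i * w.2 < 2 * Q) ∧
      k * (2 * Q) * b ≤ v ∧ (v : ℝ) ^ (2 - ε) ≤ ((Q * D.card : ℕ) : ℝ) ∧
      ∀ T : ℕ, (∀ l p, l * (l - 1) ≤ k - 1 → 2 ≤ l → 2 ≤ p →
        2 ^ p ≤ 4 * ((p * l) ^ l) ^ 2 * T ∨ b ^ k ≤ T * (((p * l) ^ l) ^ 2 * b ^ (k - (l + 1)))) →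
        (2 : ℝ) ^ ((v : ℝ) ^ (ε / 64)) ≤ T := by
  have h1 : Filter.Tendsto (fun v : ℕ => (v : ℝ) ^ (ε / 32)) Filter.atTop Filter.atTop :=
    (tendsto_rpow_atTop (by positivity)).comp tendsto_natCast_atTop_atTop
  have h2 : Filter.Tendsto (fun v : ℕ => √(Real.log (v : ℝ))) Filter.atTop Filter.atTop :=
    Real.tendsto_sqrt_atTop.comp (Real.tendsto_log_atTop.comp tendsto_natCast_atTop_atTop)
  obtain ⟨v₀, hv₀⟩ := Filter.eventually_atTop.1
    ((h1.eventually_ge_atTop ((2 : ℝ) ^ 200)).and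
      ((h2.eventually_ge_atTop (16 / ε)).and (Filter.eventually_ge_atTop 1)))
  refine ⟨v₀, fun v hv k hk => ?_⟩
  obtain ⟨g1, g2, g3⟩ := hv₀ v hv
  have hv1 : (1 : ℝ) ≤ v := by exact_mod_cast g3
  have hv0 : (0 : ℝ) < v := by linarith
  set b := ⌊(v : ℝ) ^ (ε / 8)⌋₊ with hb
  have hkle : (k : ℝ) ≤ (v : ℝ) ^ (ε / 32) := by
    rw [hk]
    exact Nat.floor_le (by positivity)
  have hklt : (v : ℝ) ^ (ε / 32) < k + 1 := by
    rw [hk]
    exact Nat.lt_floor_add_one _
  have hble : (b : ℝ) ≤ (v : ℝ) ^ (ε / 8) := Nat.floor_le (by positivity)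
  have hk5 : 5 ≤ k := by
    rw [hk]
    apply Nat.le_floor
    refine le_trans ?_ g1
    norm_num
  have hkb : k ^ 4 ≤ b := by
    rw [hb]
    apply Nat.le_floor
    push_cast
    calc (k : ℝ) ^ 4 ≤ ((v : ℝ) ^ (ε / 32)) ^ 4 := by gcongr
      _ = (v : ℝ) ^ (ε / 8) := by
        rw [← Real.rpow_natCast, ← Real.rpow_mul hv0.le]
        congr 1
        push_cast
        ring
  have hb200 : 2 ^ 200 ≤ b := by
    rw [hb]
    apply Nat.le_floor
    have h3 : (v : ℝ) ^ (ε / 32) ≤ (v : ℝ) ^ (ε / 8) :=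
      Real.rpow_le_rpow_of_exponent_le hv1 (by linarith)
    refine le_trans ?_ (g1.trans h3)
    norm_num
  have hb0 : 0 < b := lt_of_lt_of_le (by positivity) hb200
  have hk0 : 0 < k := by omega
  set Q := v / (2 * k * b) with hQ
  have hKv : 2 * k * b * k ≤ v := by
    have h3 : ((2 * k * b * k : ℕ) : ℝ) ≤ v := by
      push_cast
      calc 2 * (k : ℝ) * b * k ≤ (v : ℝ) ^ (ε / 32) * (v : ℝ) ^ (ε / 32) * (v : ℝ) ^ (ε / 8) *
            (v : ℝ) ^ (ε / 32) := by
            have : (2 : ℝ) ≤ (v : ℝ) ^ (ε / 32) := le_trans (by norm_num) g1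
            gcongr
        _ = (v : ℝ) ^ (ε / 32 + ε / 32 + ε / 8 + ε / 32) := by
            rw [Real.rpow_add hv0, Real.rpow_add hv0, Real.rpow_add hv0]
        _ ≤ (v : ℝ) ^ (1 : ℝ) := Real.rpow_le_rpow_of_exponent_le hv1 (by linarith)
        _ = v := Real.rpow_one _
    exact_mod_cast h3
  have hK0 : 0 < 2 * k * b := by positivity
  have hQk : k ≤ Q := by
    rw [hQ, Nat.le_div_iff_mul_le hK0]
    rw [mul_comm] at hKv
    exact hKv
  have hQ1 : 1 ≤ Q := by omega
  have hvQ : v ≤ 4 * k * b * Q := by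
    have h3 : v < 2 * k * b * (Q + 1) := Nat.lt_mul_div_succ v hK0
    calc v ≤ 2 * k * b * (Q + 1) := h3.le
      _ ≤ 2 * k * b * (2 * Q) := Nat.mul_le_mul_left _ (by omega)
      _ = 4 * k * b * Q := by ring
  set Q' := Q / k with hQ'
  have hQ'1 : 1 ≤ Q' := by
    rw [hQ', Nat.le_div_iff_mul_le hk0]
    omega
  have hQQ' : Q ≤ 2 * k * Q' := by
    have h3 : Q < k * (Q' + 1) := Nat.lt_mul_div_succ Q hk0
    calc Q ≤ k * (Q' + 1) := h3.le
      _ ≤ k * (2 * Q') := Nat.mul_le_mul_left _ (by omega)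
      _ = 2 * k * Q' := by ring
  obtain ⟨D, hDsub, hDcard, hDfree⟩ := rothNumberNat_spec Q'
  refine ⟨Q, b, D, by omega, hb0, hDfree, ?_, ?_, ?_, ?_⟩
  · intro w hw i hi
    rw [Finset.mem_product, Finset.mem_range] at hw
    have h3 : w.2 < Q' := Finset.mem_range.1 (hDsub hw.2)
    have h4 : i * w.2 ≤ k * Q' := Nat.mul_le_mul hi.le h3.le
    have h5 : k * Q' ≤ Q := by
      rw [mul_comm]
      exact Nat.div_mul_le_self Q k
    omega
  · have h3 : Q * (2 * k * b) ≤ v := Nat.div_mul_le_self _ _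
    calc k * (2 * Q) * b = Q * (2 * k * b) := by ring
      _ ≤ v := h3
  · -- the number of windows
    have hL : 0 ≤ Real.log (v : ℝ) := Real.log_nonneg hv1
    have hroth : (Q' : ℝ) * Real.exp (-4 * √(Real.log (v : ℝ))) ≤ D.card := by
      have h3 := Behrend.roth_lower_bound (N := Q')
      rw [← hDcard] at h3
      refine le_trans ?_ h3
      have h4 : Q' ≤ v := (Nat.div_le_self _ _).trans (Nat.div_le_self _ _)
      have h5 : Real.log (Q' : ℝ) ≤ Real.log (v : ℝ) :=
        Real.log_le_log (by exact_mod_cast hQ'1) (by exact_mod_cast h4)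
      have h6 : √(Real.log (Q' : ℝ)) ≤ √(Real.log (v : ℝ)) := Real.sqrt_le_sqrt h5
      apply mul_le_mul_of_nonneg_left _ (by positivity)
      apply Real.exp_le_exp.2
      linarith
    have hQQ : (v : ℝ) ^ 2 ≤ 32 * (v : ℝ) ^ (11 * ε / 32) * (Q * Q') := by
      have h3 : v * v ≤ 32 * (k ^ 3 * b ^ 2) * (Q * Q') := by
        calc v * v ≤ (4 * k * b * Q) * (4 * k * b * Q) := Nat.mul_le_mul hvQ hvQ
          _ = 16 * (k ^ 2 * b ^ 2) * (Q * Q) := by ring
          _ ≤ 16 * (k ^ 2 * b ^ 2) * (Q * (2 * k * Q')) := by gcongr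
          _ = _ := by ring
      calc (v : ℝ) ^ 2 = ((v * v : ℕ) : ℝ) := by push_cast; ring
        _ ≤ ((32 * (k ^ 3 * b ^ 2) * (Q * Q') : ℕ) : ℝ) := by exact_mod_cast h3
        _ = 32 * ((k : ℝ) ^ 3 * (b : ℝ) ^ 2) * (Q * Q') := by push_cast; ring
        _ ≤ 32 * (((v : ℝ) ^ (ε / 32)) ^ 3 * ((v : ℝ) ^ (ε / 8)) ^ 2) * (Q * Q') := by gcongr
        _ = 32 * (v : ℝ) ^ (11 * ε / 32) * (Q * Q') := by
          rw [← Real.rpow_natCast, ← Real.rpow_natCast, ← Real.rpow_mul hv0.le,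
            ← Real.rpow_mul hv0.le, ← Real.rpow_add hv0]
          congr 3
          push_cast
          ring
    have hexp : 32 * Real.exp (4 * √(Real.log (v : ℝ))) ≤ (v : ℝ) ^ (21 * ε / 32) := by
      set y := √(Real.log (v : ℝ)) with hy
      have hy2 : y ^ 2 = Real.log v := Real.sq_sqrt hL
      have hy0 : 0 ≤ y := Real.sqrt_nonneg _
      have hεy : 16 ≤ ε * y := by
        calc (16 : ℝ) = ε * (16 / ε) := by field_simp
          _ ≤ ε * y := by gcongr
      have hy16 : 16 ≤ y := by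
        have : ε * y ≤ 1 * y := by gcongr
        linarith
      have h32 : (32 : ℝ) ≤ Real.exp 4 := by
        have h3 : (2.7 : ℝ) ≤ Real.exp 1 := by
          have := Real.exp_one_gt_d9
          linarith
        calc (32 : ℝ) ≤ 2.7 ^ 4 := by norm_num
          _ ≤ (Real.exp 1) ^ 4 := by gcongr
          _ = Real.exp 4 := by
            rw [← Real.exp_nat_mul]
            norm_num
      calc 32 * Real.exp (4 * y) ≤ Real.exp 4 * Real.exp (4 * y) := by gcongr
        _ = Real.exp (4 + 4 * y) := by rw [← Real.exp_add]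
        _ ≤ Real.exp (Real.log v * (21 * ε / 32)) := by
          apply Real.exp_le_exp.2
          rw [← hy2]
          nlinarith
        _ = (v : ℝ) ^ (21 * ε / 32) := by rw [Real.rpow_def_of_pos hv0]
    have hfin : (v : ℝ) ^ (2 - ε) * (32 * (v : ℝ) ^ (11 * ε / 32)) ≤
        (Q * D.card : ℝ) * (32 * (v : ℝ) ^ (11 * ε / 32)) := by
      have h4 : (v : ℝ) ^ (2 - ε) * (32 * (v : ℝ) ^ (11 * ε / 32)) *
          Real.exp (4 * √(Real.log (v : ℝ))) ≤ (v : ℝ) ^ 2 := by
        calc (v : ℝ) ^ (2 - ε) * (32 * (v : ℝ) ^ (11 * ε / 32)) *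
              Real.exp (4 * √(Real.log (v : ℝ)))
            = (v : ℝ) ^ (2 - ε) * (v : ℝ) ^ (11 * ε / 32) *
              (32 * Real.exp (4 * √(Real.log (v : ℝ)))) := by ring
          _ ≤ (v : ℝ) ^ (2 - ε) * (v : ℝ) ^ (11 * ε / 32) * (v : ℝ) ^ (21 * ε / 32) := by
              gcongr
          _ = (v : ℝ) ^ 2 := by
              rw [← Real.rpow_add hv0, ← Real.rpow_add hv0, ← Real.rpow_natCast]
              congr 1
              push_cast
              ring
      have h5 : (0 : ℝ) < Real.exp (4 * √(Real.log (v : ℝ))) := Real.exp_pos _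
      have h6 : (Q * Q' : ℝ) ≤ (Q * D.card) * Real.exp (4 * √(Real.log (v : ℝ))) := by
        have h7 : (Q' : ℝ) ≤ D.card * Real.exp (4 * √(Real.log (v : ℝ))) := by
          calc (Q' : ℝ) = (Q' * Real.exp (-4 * √(Real.log (v : ℝ)))) *
                Real.exp (4 * √(Real.log (v : ℝ))) := by
                rw [mul_assoc, ← Real.exp_add]
                simp
            _ ≤ D.card * Real.exp (4 * √(Real.log (v : ℝ))) := by gcongr
        calc (Q * Q' : ℝ) ≤ Q * (D.card * Real.exp (4 * √(Real.log (v : ℝ)))) := by gcongr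
          _ = _ := by ring
      refine le_of_mul_le_mul_right ?_ h5
      calc (v : ℝ) ^ (2 - ε) * (32 * (v : ℝ) ^ (11 * ε / 32)) *
            Real.exp (4 * √(Real.log (v : ℝ))) ≤ (v : ℝ) ^ 2 := h4
        _ ≤ 32 * (v : ℝ) ^ (11 * ε / 32) * (Q * Q') := hQQ
        _ ≤ 32 * (v : ℝ) ^ (11 * ε / 32) *
            ((Q * D.card) * Real.exp (4 * √(Real.log (v : ℝ)))) := by gcongr
        _ = _ := by ring
    push_cast
    exact le_of_mul_le_mul_right hfin (by positivity)
  · -- the bound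
    intro T hT
    have h3 := numerics_win hb200 hk5 hkb hT
    refine le_trans ?_ h3
    have hkr : (5 : ℝ) ≤ k := by exact_mod_cast hk5
    have e1 : (v : ℝ) ^ (ε / 64) ≤ √((k : ℝ) + 1) := by
      apply Real.le_sqrt_of_sq_le
      refine le_trans (le_of_eq ?_) hklt.le
      rw [← Real.rpow_natCast, ← Real.rpow_mul hv0.le]
      congr 1
      push_cast
      ring
    have e3 : √((k : ℝ) + 1) ≤ 25 * √(k : ℝ) := by
      rw [Real.sqrt_le_left (by positivity), mul_pow, Real.sq_sqrt (by linarith)]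
      linarith
    calc (2 : ℝ) ^ ((v : ℝ) ^ (ε / 64)) ≤ (2 : ℝ) ^ (200 * (√(k : ℝ) / 8)) := by
          apply Real.rpow_le_rpow_of_exponent_le (by norm_num)
          linarith
      _ = ((2 : ℝ) ^ (200 : ℝ)) ^ (√(k : ℝ) / 8) := by rw [← Real.rpow_mul (by norm_num)]
      _ ≤ (b : ℝ) ^ (√(k : ℝ) / 8) := by
          apply Real.rpow_le_rpow (by positivity) _ (by positivity)
          have : ((2 ^ 200 : ℕ) : ℝ) ≤ b := by exact_mod_cast hb200
          refine le_trans (le_of_eq ?_) this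
          norm_num

open Classical in
/-- **Windows.** The problem whether a graph on `v` vertices has no independent set with `k`
vertices, `k = ⌊v ^ (ε / 32)⌋`, contains at least `v ^ (2 - ε)` independent problems, each of which
needs monotone programs of exponential size. -/
theorem windows (ε : ℝ) (hε : 0 < ε) (hε1 : ε ≤ 1) : ∃ v₀ : ℕ, ∀ v ≥ v₀, ∀ k : ℕ,
    k = ⌊(v : ℝ) ^ (ε / 32)⌋₊ → ∃ (m : ℕ) (B : Fin m → Edge v → Bool),
      (v : ℝ) ^ (2 - ε) ≤ m ∧ (∀ i j e, B i e = true → B j e = true → i = j) ∧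
      (∀ x : Edge v → Bool, (∀ e, (∀ i, B i e = false) → x e = true) →
        (nis v k x = true ↔ ∀ i, nis v k (fun e => !(B i e) || x e) = true)) ∧
      ∀ i T, MonSize (fun x => nis v k fun e => !(B i e) || x e) T →
        (2 : ℝ) ^ ((v : ℝ) ^ (ε / 64)) ≤ T := by
  obtain ⟨v₀, hv₀⟩ := params ε hε hε1
  refine ⟨v₀, fun v hv k hk => ?_⟩
  obtain ⟨Q, b, D, hk2, hb0, hD, hw, hQb, hcard, hT⟩ := hv₀ v hv k hk
  set W := Finset.range Q ×ˢ D with hW
  have hWc : W.card = Q * D.card := by rw [hW, card_product, card_range]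
  let φ : Fin W.card ≃ W := W.equivFin.symm
  refine ⟨W.card, fun i e => decide (InWin k Q b (φ i).1 e), ?_, ?_, ?_, ?_⟩
  · rw [hWc]
    exact hcard
  · intro i j e h1 h2
    rw [decide_eq_true_eq] at h1 h2
    exact φ.injective (Subtype.ext (h1.unique h2))
  · intro x hx
    constructor
    · intro h i
      rw [nis_iff] at h ⊢
      intro S hS
      obtain ⟨e, h1, h2, h3⟩ := h S hS
      exact ⟨e, h1, h2, by simp [h3]⟩
    · intro h
      by_contra hne
      rw [nis_iff] at hne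
      push Not at hne
      obtain ⟨S, hS, hSx⟩ := hne
      obtain ⟨w, hwW, hwS⟩ := one_window hD hk2 hS (by
        intro e h1 h2
        by_contra hno
        push Not at hno
        refine hSx e h1 h2 (hx e fun i => ?_)
        rw [decide_eq_false_iff_not]
        exact hno (φ i).1 (φ i).2)
      obtain ⟨i, hi⟩ : ∃ i, (φ i).1 = w := ⟨φ.symm ⟨w, hwW⟩, by simp⟩
      obtain ⟨e, h1, h2, h3⟩ := (nis_iff.1 (h i)) S hS
      have h4 := hwS e h1 h2
      rw [← hi] at h4
      rw [Bool.or_eq_true, Bool.not_eq_true', decide_eq_false_iff_not] at h3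
      rcases h3 with h3 | h3
      · exact h3 h4
      · exact hSx e h1 h2 h3
  · intro i T hTi
    apply hT T
    intro l p hl hl2 hp
    have h1 := monSize_dual hTi
    have h2 : dual (fun x : Edge v → Bool =>
        nis v k fun e => !(decide (InWin k Q b (φ i).1 e)) || x e) =
        winClq v k Q b (φ i).1 := by
      funext x
      unfold dual winClq
      rw [← clq_not]
      congr 1
      funext e
      simp
    rw [h2] at h1
    exact win_bound (hw _ (φ i).2) hQb hk2 hb0 hl hl2 hp h1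

end Pool.Agent.NEG72
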