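import Pool.Agent.NegLim.Defs

/-!
# Ruzsa-Szemeredi windows: a clique problem contains many independent clique problems

The vertices are divided into `k` parts of `2 * Q` blocks of `b` vertices. The window `(x, d)`
consists of the blocks number `x + i * d` of the parts `i < k`; `d` comes from a set without
three-term arithmetic progressions.
-/

namespace Pool.Agent.NEG72

open Finset Pool.Agent.NegLim

/-- the part of a vertex -/
def part (Q b u : ℕ) : ℕ := u / b / (2 * Q)

/-- the number of the block of a vertex in its part -/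
def bl (Q b u : ℕ) : ℕ := u / b % (2 * Q)

/-- the edge `e` belongs to the window `w` -/
def InWin (k Q b : ℕ) (w : ℕ × ℕ) {v : ℕ} (e : Edge v) : Prop :=
  part Q b e.1.1 < part Q b e.1.2 ∧ part Q b e.1.2 < k ∧
    bl Q b e.1.1 = w.1 + part Q b e.1.1 * w.2 ∧ bl Q b e.1.2 = w.1 + part Q b e.1.2 * w.2

lemma part_mono {Q b u u' : ℕ} (h : u ≤ u') : part Q b u ≤ part Q b u' :=
  Nat.div_le_div_right (Nat.div_le_div_right h)

lemma win_unique {i j x d x' d' y z : ℕ} (hij : i < j) (h1 : y = x + i * d) (h2 : z = x + j * d)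
    (h1' : y = x' + i * d') (h2' : z = x' + j * d') : x = x' ∧ d = d' := by
  obtain ⟨c, rfl⟩ := Nat.exists_eq_add_of_lt hij
  have h3 : (c + 1) * d = (c + 1) * d' := by
    have e1 : z = y + (c + 1) * d := by rw [h2, h1]; ring
    have e2 : z = y + (c + 1) * d' := by rw [h2', h1']; ring
    omega
  have h4 : d = d' := Nat.eq_of_mul_eq_mul_left (Nat.succ_pos c) h3
  subst h4
  omega

/-- the windows are disjoint -/
lemma InWin.unique {k Q b v : ℕ} {w w' : ℕ × ℕ} {e : Edge v} (h : InWin k Q b w e)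
    (h' : InWin k Q b w' e) : w = w' := by
  obtain ⟨h1, _, h3, h4⟩ := h
  obtain ⟨_, _, h3', h4'⟩ := h'
  obtain ⟨h5, h6⟩ := win_unique h1 h3 h4 h3' h4'
  exact Prod.ext h5 h6

/-- A set of `k` vertices all whose pairs belong to windows belongs to one window. -/
theorem one_window {v k Q b : ℕ} {D : Finset ℕ} (hD : ThreeAPFree (D : Set ℕ)) (hk : 2 ≤ k)
    {S : Finset (Fin v)} (hS : S.card = k)
    (hw : ∀ e : Edge v, e.1.1 ∈ S → e.1.2 ∈ S → ∃ w ∈ Finset.range Q ×ˢ D, InWin k Q b w e) :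
    ∃ w ∈ Finset.range Q ×ˢ D, ∀ e : Edge v, e.1.1 ∈ S → e.1.2 ∈ S → InWin k Q b w e := by
  -- the parts are different
  have hlt : ∀ u ∈ S, ∀ u' ∈ S, u < u' → part Q b u < part Q b u' ∧ part Q b u' < k := by
    intro u hu u' hu' h
    obtain ⟨w, _, h1, h2, _⟩ := hw ⟨(u, u'), h⟩ hu hu'
    exact ⟨h1, h2⟩
  have hinj : Set.InjOn (fun u : Fin v => part Q b u) (S : Set (Fin v)) := by
    intro u hu u' hu' h
    by_contra hne
    rcases lt_or_gt_of_ne hne with h1 | h1
    · exact absurd h (hlt u hu u' hu' h1).1.ne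
    · exact absurd h (hlt u' hu' u hu h1).1.ne'
  have hltk : ∀ u ∈ S, part Q b u < k := by
    intro u hu
    obtain ⟨u', hu', hne⟩ := Finset.exists_mem_ne (by omega : 1 < S.card) u
    rcases lt_or_gt_of_ne hne with h1 | h1
    · exact (hlt u' hu' u hu h1).2
    · exact (hlt u hu u' hu' h1).1.trans (hlt u hu u' hu' h1).2
  have himg : S.image (fun u : Fin v => part Q b u) = Finset.range k := by
    apply Finset.eq_of_subset_of_card_le
    · intro i hi
      obtain ⟨u, hu, rfl⟩ := Finset.mem_image.1 hi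
      exact Finset.mem_range.2 (hltk u hu)
    · rw [Finset.card_image_of_injOn hinj, hS, Finset.card_range]
  have hex : ∀ i, i < k → ∃ u, u ∈ S ∧ part Q b (u : Fin v) = i := by
    intro i hi
    have : i ∈ S.image (fun u : Fin v => part Q b u) := by
      rw [himg]
      exact Finset.mem_range.2 hi
    obtain ⟨u, hu, h⟩ := Finset.mem_image.1 this
    exact ⟨u, hu, h⟩
  -- the blocks
  have hpair : ∀ i j, i < j → ∀ hj : j < k, ∀ u ∈ S, part Q b (u : Fin v) = i → ∀ u' ∈ S,
      part Q b (u' : Fin v) = j → ∃ w ∈ Finset.range Q ×ˢ D, bl Q b u = w.1 + i * w.2 ∧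
        bl Q b u' = w.1 + j * w.2 := by
    intro i j hij hj u hu hui u' hu' huj
    have h1 : u < u' := by
      by_contra hne
      have := part_mono (Q := Q) (b := b) (Fin.le_def.1 (not_lt.1 hne))
      omega
    obtain ⟨w, hwD, _, _, h3, h4⟩ := hw ⟨(u, u'), h1⟩ hu hu'
    refine ⟨w, hwD, ?_, ?_⟩
    · rw [← hui]
      exact h3
    · rw [← huj]
      exact h4
  obtain ⟨u0, hu0, hp0⟩ := hex 0 (by omega)
  obtain ⟨u1, hu1, hp1⟩ := hex 1 (by omega)
  obtain ⟨w, hwD, ha0, ha1⟩ := hpair 0 1 (by omega) (by omega) u0 hu0 hp0 u1 hu1 hp1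
  have hmain : ∀ i, i + 1 < k → ∀ u ∈ S, ∀ u' ∈ S, part Q b (u : Fin v) = i →
      part Q b (u' : Fin v) = i + 1 →
      bl Q b u = w.1 + i * w.2 ∧ bl Q b u' = w.1 + (i + 1) * w.2 := by
    intro i
    induction i with
    | zero =>
      intro _ u hu u' hu' hp hp'
      have e0 : u = u0 := hinj hu hu0 (by simp only [hp, hp0])
      have e1 : u' = u1 := hinj hu' hu1 (by simp only [hp', hp1])
      subst e0
      subst e1
      exact ⟨ha0, ha1⟩
    | succ i ih =>
      intro hi u hu u' hu' hp hp'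
      obtain ⟨t, ht, hpt⟩ := hex i (by omega)
      obtain ⟨h1, h2⟩ := ih (by omega) t ht u hu hpt hp
      refine ⟨h2, ?_⟩
      obtain ⟨w1, hw1, g1, g2⟩ := hpair i (i + 1) (by omega) (by omega) t ht hpt u hu hp
      obtain ⟨w2, hw2, g3, g4⟩ := hpair (i + 1) (i + 1 + 1) (by omega) hi u hu hp u' hu' hp'
      obtain ⟨w3, hw3, g5, g6⟩ := hpair i (i + 1 + 1) (by omega) hi t ht hpt u' hu' hp'
      rw [Finset.mem_product] at hw1 hw2 hw3 hwD
      have e1 : w1.1 = w.1 ∧ w1.2 = w.2 := win_unique (Nat.lt_succ_self i) g1 g2 h1 h2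
      have e2 : bl Q b u = bl Q b t + w1.2 := by rw [g1, g2]; ring
      have e3 : bl Q b u' = bl Q b u + w2.2 := by rw [g4, g3]; ring
      have e4 : bl Q b u' = bl Q b t + (w3.2 + w3.2) := by rw [g5, g6]; ring
      have e5 : w1.2 + w2.2 = w3.2 + w3.2 := by omega
      have e6 : w1.2 = w3.2 := hD hw1.2 hw3.2 hw2.2 e5
      have e7 : w2.2 = w.2 := by omega
      rw [e3, h2, e7]
      ring
  have hall : ∀ u ∈ S, bl Q b (u : Fin v) = w.1 + part Q b u * w.2 := by
    intro u hu
    have hpu := hltk u hu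
    by_cases h : part Q b u + 1 < k
    · obtain ⟨u', hu', hp'⟩ := hex _ h
      exact (hmain _ h u hu u' hu' rfl hp').1
    · obtain ⟨i, hi⟩ : ∃ i, part Q b u = i + 1 := ⟨part Q b u - 1, by omega⟩
      obtain ⟨t, ht, hpt⟩ := hex i (by omega)
      have := (hmain i (by omega) t ht u hu hpt hi).2
      rw [this, hi]
  refine ⟨w, hwD, fun e he1 he2 => ⟨(hlt _ he1 _ he2 e.2).1, (hlt _ he1 _ he2 e.2).2, hall _ he1,
    hall _ he2⟩⟩

end Pool.Agent.NEG72
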